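import Pool.Agent.H254Z.MF.Model

/-!
# Forcing the existence of a surjection; a transversal lemma
-/

set_option autoImplicit false

namespace Pool.Agent.H254Z.MF

open Pool.Agent.H164Z.Bspt Cardinal
open Pool.Agent.H982Z.Sym (fOr fImp fIff fEx sat_or sat_imp sat_iff sat_ex bd)

variable {M : Type} [Monoid M]

theorem force_all_mem {φ : Fml} {v : ℕ → Nm M} {i : ℕ}
    (H : ∀ h z, Ch (v i) h z → Force φ (cons z (v * h))) :
    Force (.all (fImp (.mem 0 (i + 1)) φ)) v := by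
  intro g x
  refine force_imp.2 fun h h1 => force_of_dn fun m => ?_
  change fmem (x * h) (v i * g * h) at h1
  obtain ⟨l, z, h2, h3⟩ := h1 m
  rw [ch_res, ch_res] at h2
  refine ⟨l, ?_⟩
  rw [cons_m, cons_m, vmm, vmm]
  exact force_cons_congr h3.symm (H _ _ h2)

theorem Force.all_mem {φ : Fml} {v : ℕ → Nm M} {i : ℕ}
    (H : Force (.all (fImp (.mem 0 (i + 1)) φ)) v) (h : M) {z : Nm M} (hz : fmem z (v i * h)) :
    Force φ (cons z (v * h)) := by
  have := force_imp.1 (H h z) 1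
  rw [vm1] at this
  exact this hz

theorem Force.mp {φ ψ : Fml} {v : ℕ → Nm M} (H : Force (fImp φ ψ) v) (h : Force φ v) :
    Force ψ v := by
  have := force_imp.1 H 1
  rw [vm1] at this
  exact this h

/-- `(v 1, v 2) ∈ v 0` -/
def fRel0 : Fml := fEx (.and (.mem 0 1) (fOP 0 2 3))

/-- `(v j, v k) ∈ v i` -/
def fRel (i j k : ℕ) : Fml := fRel0.ren (cons i (cons j fun _ => k))

/-- Forcing of `(x, y) ∈ f`. -/
def RelF (f x y : Nm M) : Prop := Force fRel0 (cons f (cons x fun _ => y))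

theorem force_fRel {v : ℕ → Nm M} {i j k : ℕ} :
    Force (fRel i j k) v ↔ RelF (v i) (v j) (v k) := by
  rw [fRel, force_ren, RelF]
  congr! 1
  funext n
  match n with
  | 0 => rfl
  | 1 => rfl
  | n + 2 => rfl

theorem RelF.mul {f x y : Nm M} (H : RelF f x y) (h : M) : RelF (f * h) (x * h) (y * h) := by
  have := Force.mul H h
  rwa [cons_m, cons_m] at this

theorem RelF.congr {f x y f' x' y' : Nm M} (H : RelF f x y) (hf : feq f f') (hx : feq x x')
    (hy : feq y y') : RelF f' x' y' := by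
  refine force_congr (fun n _ => ?_) H
  match n with
  | 0 => exact hf
  | 1 => exact hx
  | n + 2 => exact hy

theorem sat_fRel {N : Type} {E : N → N → Prop} (hE : IsZF E) (w : ℕ → N) (i j k : ℕ) :
    Sat E (fRel i j k) w ↔ Rel E (w i) (w j) (w k) := by
  rw [fRel, sat_ren, fRel0, sat_ex]
  exact exists_congr fun p => and_congr Iff.rfl (sat_fOP hE _ _ _ _)

/-- There is a functional relation that maps a part of `v 1` onto `v 0`. -/
def fPS : Fml := fEx (.and
  (.all (fImp (.mem 0 1) (.all (fImp (.mem 0 2) (fEx (fEx (fEx (fEx (.and (fOP 5 3 2)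
    (.and (fOP 4 1 0) (fImp (.eq 3 1) (.eq 2 0))))))))))))
  (.all (fImp (.mem 0 2) (fEx (.and (.mem 0 4) (fRel 2 0 1))))))

/-- A functional relation maps a part of `b` onto `a`. -/
def PS {N : Type} (E : N → N → Prop) (a b : N) : Prop :=
  ∃ R, (∀ y x x', Rel E R y x → Rel E R y x' → x = x') ∧ ∀ x, E x a → ∃ y, E y b ∧ Rel E R y x

theorem sat_fPS {N : Type} (S : Str N) {w : ℕ → N} (H : Sat S.E fPS w) : PS S.E (w 0) (w 1) := by
  simp only [fPS, sat_ex, sat_imp, Sat, sat_fOP S.zf, sat_fRel S.zf] at H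
  obtain ⟨R, h1, h2⟩ := H
  refine ⟨R, ?_, h2⟩
  rintro y x x' ⟨p, hp, h3⟩ ⟨p', hp', h4⟩
  obtain ⟨y₁, x₁, y₂, x₂, h5, h6, h7⟩ := h1 p hp p' hp'
  obtain ⟨e1, e2⟩ := S.op_inj h3 h5
  obtain ⟨e3, e4⟩ := S.op_inj h4 h6
  exact e2.trans ((h7 (e1.symm.trans e3)).trans e4.symm)

theorem force_fPS {v : ℕ → Nm M} {ι : Type} (Y Z : ι → Nm M) (g : ι → M)
    (hmem : ∀ i, fmem (Y i) (v 1 * g i))
    (hfun : ∀ i i' k k', g i * k = g i' * k' → feq (Y i * k) (Y i' * k') →
      feq (Z i * k) (Z i' * k'))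
    (hcov : ∀ (h : M) z, fmem z (v 0 * h) → ∃ l i k, h * l = g i * k ∧ feq (z * l) (Z i * k)) :
    Force fPS v := by
  let R : Nm M := ⟨ι, fun i => opN (Y i) (Z i), fun i => ⟨fun h k => h = g i * k,
    fun h k l H => by rw [H, mul_assoc]⟩⟩
  refine force_ex_of R ⟨force_all_mem ?_, force_all_mem fun h z hz => force_ex.2 fun m => ?_⟩
  · rintro _ _ ⟨i, k, rfl, rfl⟩
    refine force_all_mem fun h z hz => ?_
    obtain ⟨i', k', h1, rfl⟩ := (ch_res R _ _ _).1 hz
    refine force_ex_of (Y i * k * h) (force_ex_of (Z i * k * h) (force_ex_of (Y i' * k')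
      (force_ex_of (Z i' * k') ⟨force_fOP (g := k * h) (feq.of_eq (mm _ _ _))
        (feq.of_eq (mm _ _ _)) (feq.of_eq (mm _ _ _)),
        force_fOP (feq.rfl _) (feq.rfl _) (feq.rfl _), force_imp.2 fun l H => ?_⟩)))
    change feq (Y i * k * h * l) (Y i' * k' * l) at H
    change feq (Z i * k * h * l) (Z i' * k' * l)
    rw [mm, mm, mm] at H ⊢
    refine hfun _ _ _ _ ?_ H
    have h2 : g i * k * h = g i' * k' := h1
    rw [← mul_assoc, ← mul_assoc, h2, mul_assoc]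
  · have h1 : fmem (z * m) (v 0 * (h * m)) := by
      rw [← mm]; exact hz.fmem.mul m
    obtain ⟨l, i, k, h2, h3⟩ := hcov _ _ h1
    refine ⟨l, Y i * k, ?_, force_fRel.2 (force_ex_of (opN (Y i) (Z i) * k) ⟨?_,
      force_fOP (feq.rfl _) (feq.rfl _) ?_⟩)⟩
    · change fmem (Y i * k) (v 1 * h * (m * l))
      rw [mm, ← mul_assoc, h2, ← mm]
      exact (hmem i).mul k
    · change fmem _ (R * h * (m * l))
      rw [mm, ← mul_assoc]
      exact Ch.fmem ⟨i, k, h2, rfl⟩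
    · change feq (z * (m * l)) _
      rwa [← mm]

theorem transversal {K J : Type} (S : K → Set J) (h : ∀ k, #K ≤ #(S k)) :
    ∃ f : K → J, Function.Injective f ∧ ∀ k, f k ∈ S k := by
  obtain ⟨r, wo, hr⟩ := exists_ord_eq K
  have H : ∀ (k : K) (w : ∀ k', r k' k → J), ∃ j ∈ S k, ∀ k' hk, w k' hk ≠ j := by
    intro k w
    by_contra h1
    push Not at h1
    have h2 : S k ⊆ Set.range fun a : {k' // r k' k} => w a.1 a.2 := fun j hj => by
      obtain ⟨k', hk, h3⟩ := h1 j hj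
      exact ⟨⟨k', hk⟩, h3⟩
    have h3 := card_typein_lt (r := r) k hr
    rw [Ordinal.card_typein] at h3
    exact absurd ((h k).trans ((mk_le_mk_of_subset h2).trans mk_range_le)) (not_le.2 h3)
  choose g hg1 hg2 using H
  let f : K → J := wo.wf.fix g
  have hf : ∀ k, f k = g k fun k' _ => f k' := fun k => WellFounded.fix_eq _ g k
  refine ⟨f, fun k k' h1 => ?_, fun k => by rw [hf]; exact hg1 _ _⟩
  rcases trichotomous_of r k k' with h2 | h2 | h2
  · exact absurd (h1.trans (hf k')) (hg2 k' (fun k _ => f k) k h2)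
  · exact h2
  · exact absurd (h1.symm.trans (hf k)) (hg2 k (fun k _ => f k) k' h2)

theorem comb {J I U : Type} [Countable U] (T : Set J) (S : U → Set J) (hS : ∀ u, S u ⊆ T)
    (hc : ∀ u, #T ≤ #(S u)) (A : Set I) (hA : #A ≤ #T) :
    ∃ R : J → I → Prop, (∀ j i i', R j i → R j i' → i = i') ∧
      ∀ i ∈ A, ∀ u, ∃ j ∈ S u, R j i := by
  rcases T.finite_or_infinite with hT | hT
  · obtain ⟨e⟩ := hA
    refine ⟨fun j i => ∃ h : i ∈ A, (e ⟨i, h⟩).1 = j, ?_, fun i hi u => ⟨_, ?_, hi, rfl⟩⟩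
    · rintro _ i i' ⟨h, rfl⟩ ⟨h', h1⟩
      exact (congrArg Subtype.val (e.injective (Subtype.ext h1))).symm
    · rw [hT.eq_of_subset_of_encard_le' (hS u) (toENat.monotone' (hc u))]
      exact (e ⟨i, hi⟩).2
  · have h1 : ℵ₀ ≤ #T := aleph0_le_mk_iff.2 hT.to_subtype
    obtain ⟨f, h2, h3⟩ := transversal (K := U × A) (fun k => S k.1) fun k => by
      refine le_trans ?_ (hc k.1)
      rw [mk_prod, lift_id, lift_id]
      exact (mul_le_mul' (mk_le_aleph0.trans h1) hA).trans (mul_eq_self h1).le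
    refine ⟨fun j i => ∃ (u : U) (h : i ∈ A), f (u, ⟨i, h⟩) = j, ?_,
      fun i hi u => ⟨_, h3 (u, ⟨i, hi⟩), u, hi, rfl⟩⟩
    rintro _ i i' ⟨u, h, rfl⟩ ⟨u', h', h4⟩
    exact (congrArg (fun a : U × A => a.2.1) (h2 h4)).symm

end Pool.Agent.H254Z.MF
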