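import Pool.Agent.H254Z.MF.Mon
import Pool.Agent.H254Z.MF.Cmp

/-!
# Decomposition of a name into trivial and nontrivial pieces; comparison
-/

set_option autoImplicit false

namespace Pool.Agent.H254Z.MF

open Pool.Agent.H164Z.Bspt Cardinal Set

/-- The value does not depend on the second coordinate. -/
def Triv (p : C) (x : Nm QM) : Prop :=
  ∀ k k' : QM, ae (p1 * k) (p1 * k') → In (p1 * k) p → feq (x * k) (x * k')

/-- Mutually generic second coordinates give different values. -/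
def Ntr (p : C) (x : Nm QM) : Prop :=
  ∀ k k' : QM, MG k k' → In (p1 * k) p → ¬ feq (x * k) (x * k')

/-- The values are elements of `a`. -/
def Mem (a : Nm QM) (p : C) (x : Nm QM) : Prop :=
  ∀ k : QM, In (p1 * k) p → fmem (x * k) (a * (p1 * k))

/-- Two pieces have no common value. -/
def Disj (p : C) (x : Nm QM) (p' : C) (x' : Nm QM) : Prop :=
  ∀ k k' : QM, ae (p1 * k) (p1 * k') → In (p1 * k) p → In (p1 * k) p' → ¬ feq (x * k) (x' * k')

theorem Disj.symm {p p' : C} {x x' : Nm QM} (h : Disj p x p' x') : Disj p' x' p x :=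
  fun k k' h1 h2 h3 h4 => h k' k h1.symm (h3.ae h1) (h2.ae h1) h4.symm

theorem not_disj (p : C) (x : Nm QM) : ¬ Disj p x p x := fun h => by
  obtain ⟨φ, h1, -⟩ := exists_prod (mC p)
  have h2 : In (p1 * φ) p := by rw [h1]; exact in_mC _ _
  exact h φ φ (ae.rfl _) h2 h2 (feq.rfl _)

theorem dichotomy (p : C) (x : Nm QM) : ∃ (p' : C) (σ : QM), cyl p' ⊆ cyl p ∧ p1 * σ = p1 ∧
    (Triv p' (x * σ) ∨ Ntr p' (x * σ)) := by
  by_cases h : Ntr p x
  · exact ⟨p, 1, Subset.rfl, mul_one _, Or.inr (by rwa [m1])⟩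
  simp only [Ntr, not_forall, not_not] at h
  obtain ⟨k₀, k₀', h1, h2, h3⟩ := h
  obtain ⟨p', s, s', h4, h5⟩ := h1.amalg h2
  have h6 : ∀ k k', MG k k' → In (p1 * k) p' → In (p2 * k) s → In (p2 * k') s' →
      feq (x * k) (x * k') := fun k k' i0 i1 i2 i3 => feq_of_dn fun m => by
    obtain ⟨l, h6, h7⟩ := h5 _ _ (i0.mul m) (i1.mul' m) (i2.mul' m) (i3.mul' m)
    have h8 := h3.mul l
    rw [mm, mm] at h8
    refine ⟨p1, ?_⟩
    rw [mm, mm, ← mul_assoc, ← mul_assoc]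
    exact (feq_ae x h6).symm.trans (h8.trans (feq_ae x h7))
  obtain ⟨σ, h7, h8⟩ := exists_prod' s
  refine ⟨p', σ, h4, h7, Or.inl fun k k' i0 i1 => feq_of_dn fun m => ⟨p1, ?_⟩⟩
  obtain ⟨k'', h9, h10⟩ := third (p1 * k * m) s'
  have h11 : ∀ k₁, ae (p1 * k) (p1 * k₁) → feq (x * σ * k₁ * (m * p1)) (x * k'') := fun k₁ i => by
    have e1 : p1 * (σ * k₁ * m) = p1 * k₁ * m := by rw [← mul_assoc, ← mul_assoc, h7]
    have e2 : p2 * (σ * k₁ * m * p1) = mC s * (p2 * k₁ * m * p1) := by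
      simp only [← mul_assoc, h8]
    rw [mm, mm, ← mul_assoc, ← mul_assoc]
    refine h6 _ _ (h10 _ (by rw [e1]; exact (i.mul m).symm)) ?_ (by rw [e2]; exact in_mC _ _) h9
    rw [← mul_assoc, e1]
    exact ((i1.ae i).mul m).mul p1
  exact (h11 k (ae.rfl _)).trans (h11 k' i0).symm

/-- A decomposition of `a` into pieces. -/
structure Dec (a : Nm QM) where
  /-- index set -/
  ι : Type
  /-- conditions -/
  p : ι → C
  /-- names -/
  x : ι → Nm QM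
  /-- types -/
  t : ι → Bool
  triv : ∀ i, t i = true → Triv (p i) (x i)
  ntr : ∀ i, t i = false → Ntr (p i) (x i)
  mem : ∀ i, Mem a (p i) (x i)
  disj : ∀ i j, i ≠ j → Disj (p i) (x i) (p j) (x j)
  cov : ∀ (r : QM) z, fmem z (a * r) →
    ∃ l i k, ae (p1 * k) (r * l) ∧ In (p1 * k) (p i) ∧ feq (z * l) (x i * k)

theorem exists_dec (a : Nm QM) : Nonempty (Dec a) := by
  classical
  let nm : a.ι × QM × C → Nm QM := fun c => a.A c.1 * c.2.1
  let Good : a.ι × QM × C → Prop := fun c => Mem a c.2.2 (nm c) ∧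
    (Triv c.2.2 (nm c) ∨ Ntr c.2.2 (nm c))
  let D : a.ι × QM × C → a.ι × QM × C → Prop := fun c d => Disj c.2.2 (nm c) d.2.2 (nm d)
  obtain ⟨m, hm⟩ := zorn_subset {s | (∀ c ∈ s, Good c) ∧ s.Pairwise D} fun T hT hc =>
    ⟨⋃₀ T, ⟨fun c ⟨s, hs, h⟩ => (hT hs).1 c h, (pairwise_sUnion hc.directedOn).2
      fun s hs => (hT hs).2⟩, fun s hs => subset_sUnion_of_mem hs⟩
  have key : ∀ c, Good c → ∃ d ∈ m, ¬ D c d := fun c hc => by
    by_contra h
    push Not at h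
    have h1 : insert c m ⊆ m := hm.2 ⟨fun d hd => by
      rcases hd with rfl | hd
      · exact hc
      · exact hm.1.1 d hd, hm.1.2.insert fun d hd _ => ⟨h d hd, (h d hd).symm⟩⟩
      (subset_insert c m)
    exact not_disj _ _ (h c (h1 (mem_insert c m)))
  refine ⟨⟨m, fun i => i.1.2.2, fun i => nm i.1, fun i => decide (Triv i.1.2.2 (nm i.1)),
    fun i h => of_decide_eq_true h, fun i h => (hm.1.1 _ i.2).2.resolve_left (of_decide_eq_false h),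
    fun i => (hm.1.1 _ i.2).1, fun i j h => hm.1.2 i.2 j.2 fun h' => h (Subtype.ext h'),
    fun r z hz => ?_⟩⟩
  obtain ⟨l, _, ⟨j, k₀, h1, rfl⟩, h2⟩ := hz.ex
  obtain ⟨p, κ, h3⟩ := lift' (r * l)
  obtain ⟨p', σ, h4, h5, h6⟩ := dichotomy p (a.A j * (k₀ * κ))
  rw [mm] at h6
  have h7 : ∀ k, In (p1 * k) p' → ae (r * l * (κ * σ * k)) (p1 * k) := fun k hk => by
    have e1 : p1 * (σ * k) = p1 * k := by rw [← mul_assoc, h5]
    have := h3 (σ * k) (by rw [e1]; exact hk.mono h4)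
    rwa [e1] at this
  obtain ⟨d, hd, h8⟩ := key (j, k₀ * κ * σ, p') ⟨fun k hk => by
    have h8 := (Ch.mul (y := a) ⟨j, k₀, h1, rfl⟩ (κ * σ * k)).fmem.right (feq_ae a (h7 k hk))
    simp only [nm]
    rw [mm] at h8 ⊢
    exact h8, h6⟩
  simp only [D, Disj, not_forall, not_not] at h8
  obtain ⟨k, k', h9, h10, h11, h12⟩ := h8
  refine ⟨l * (κ * σ * k), ⟨d, hd⟩, k', ?_, h11.ae h9, feq.trans ?_ h12⟩
  · rw [← mul_assoc]
    exact ((h7 k h10).trans h9).symm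
  · have := h2.mul (κ * σ * k)
    rw [mm, mm] at this
    simp only [nm]
    rw [mm]
    exact this

/-- The pieces of type `b` that may be active below `c`. -/
def Dec.act {a : Nm QM} (D : Dec a) (b : Bool) (c : C) : Set D.ι :=
  {i | D.t i = b ∧ (cyl (D.p i) ∩ cyl c).Nonempty}

theorem Dec.act_mono {a : Nm QM} (D : Dec a) (b : Bool) {c d : C} (h : cyl c ⊆ cyl d) :
    D.act b c ⊆ D.act b d := fun _ hi => ⟨hi.1, hi.2.mono (inter_subset_inter_right _ h)⟩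

/-- The numbers of trivial and of nontrivial pieces. -/
def Inv (y : Nm QM) (θ : Bool → Cardinal.{0}) : Prop :=
  ∃ (a : Nm QM) (D : Dec a) (q : C) (r : QM), y = a * r ∧ In r q ∧
    ∀ b c, cyl c ⊆ cyl q → #(D.act b c) = θ b

theorem Inv.mul {y : Nm QM} {θ : Bool → Cardinal.{0}} (H : Inv y θ) (h : QM) : Inv (y * h) θ := by
  obtain ⟨a, D, q, r, rfl, h1, h2⟩ := H
  exact ⟨a, D, q, r * h, mm _ _ _, h1.mul h, h2⟩

theorem exists_inv (y : Nm QM) : ∃ (h : QM) (θ : Bool → Cardinal.{0}), Inv (y * h) θ := by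
  obtain ⟨D⟩ := exists_dec y
  have H : ∀ b c₀, ∃ q, cyl q ⊆ cyl c₀ ∧ ∀ c, cyl c ⊆ cyl q → #(D.act b c) = #(D.act b q) := by
    intro b c₀
    obtain ⟨_, ⟨q, hq, rfl⟩, h⟩ := (wellFounded_lt (α := Cardinal.{0})).has_min
      ((fun c => #(D.act b c)) '' {c | cyl c ⊆ cyl c₀}) ⟨_, c₀, Subset.rfl, rfl⟩
    exact ⟨q, hq, fun c hc => le_antisymm (mk_le_mk_of_subset (D.act_mono b hc))
      (not_lt.1 (h _ ⟨c, hc.trans hq, rfl⟩))⟩
  obtain ⟨q₁, -, h1⟩ := H true (0, 0)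
  obtain ⟨q, h2, h3⟩ := H false q₁
  refine ⟨mC q, fun b => #(D.act b q), y, D, q, mC q, rfl, in_mC q 1, fun b c hc => ?_⟩
  cases b
  · exact h3 c hc
  · exact (h1 c (hc.trans h2)).trans (h1 q h2).symm

theorem Inv.cmp {v : ℕ → Nm QM} {θ θ' : Bool → Cardinal.{0}} (H : Inv (v 0) θ)
    (H' : Inv (v 1) θ') (hθ : θ ≤ θ') : Force fPS v := by
  refine force_of_dn fun m => ⟨p1, ?_⟩
  obtain ⟨a, D, q, r, e1, i1, s1⟩ := H.mul m
  obtain ⟨b, D', q', r', e2, i2, s2⟩ := H'.mul m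
  have hR : ∀ t : Bool, ∃ R : D'.ι → D.ι → Prop, (∀ j i i', R j i → R j i' → i = i') ∧
      ∀ i ∈ D.act t q, ∀ u, ∃ j, (D'.t j = t ∧ ∃ u', cyl u' ⊆ cyl u ∧
        In (r' * mC u') (D'.p j)) ∧ R j i := fun t => by
    refine comb (D'.act t q') (fun u => {j | D'.t j = t ∧ ∃ u', cyl u' ⊆ cyl u ∧
      In (r' * mC u') (D'.p j)}) (fun u j ⟨h1, u', _, h2⟩ => ⟨h1, h2.meet (i2.mul _)⟩)
      (fun u => ?_) (D.act t q) ?_
    · obtain ⟨c₀, h1, h2⟩ := red r' u i2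
      rw [s2 t q' Subset.rfl, ← s2 t c₀ h1]
      exact mk_le_mk_of_subset fun j hj => ⟨hj.1, h2 _ hj.2⟩
    · rw [s1 t q Subset.rfl, s2 t q' Subset.rfl]
      exact hθ t
  choose R hR1 hR2 using hR
  obtain ⟨φ, f1, -⟩ := exists_prod r'
  let ι : Type := {z : D'.ι × D.ι × QM × QM × QM // R (D.t z.2.1) z.1 z.2.1 ∧
    D'.t z.1 = D.t z.2.1 ∧ ae (p1 * z.2.2.1) (r' * p1 * z.2.2.2.2) ∧ In (p1 * z.2.2.1) (D'.p z.1) ∧
    ae (p1 * z.2.2.2.1) (r * p1 * z.2.2.2.2) ∧ In (p1 * z.2.2.2.1) (D.p z.2.1) ∧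
    (D.t z.2.1 = false → Lk (φ * z.2.2.2.2) (p2 * z.2.2.2.1) z.2.2.1)}
  have e3 : ∀ h : QM, (v * (m * p1)) 0 * h = a * (r * p1 * h) := fun h => by
    rw [vm_apply, ← mm (v 0), e1, mm, mm, mul_assoc]
  have e4 : ∀ h : QM, (v * (m * p1)) 1 * h = b * (r' * p1 * h) := fun h => by
    rw [vm_apply, ← mm (v 1), e2, mm, mm, mul_assoc]
  refine force_fPS (ι := ι) (fun z => D'.x z.1.1 * z.1.2.2.1) (fun z => D.x z.1.2.1 * z.1.2.2.2.1)
    (fun z => z.1.2.2.2.2) ?_ ?_ fun h z hz => ?_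
  · rintro ⟨⟨j, i, σ, π, g⟩, -, -, h1, h2, -⟩
    rw [e4]
    exact (D'.mem j σ h2).right (feq_ae b h1)
  · rintro ⟨⟨j, i, σ, π, g⟩, h1, h2, h3, h4, h5, h6, h7⟩
      ⟨⟨j', i', σ', π', g'⟩, h1', h2', h3', h4', h5', h6', h7'⟩ k k' e5 h8
    simp only at h1 h2 h3 h4 h5 h6 h7 h1' h2' h3' h4' h5' h6' h7' e5 h8 ⊢
    rw [mm, mm] at h8 ⊢
    have h9 : ae (p1 * (σ * k)) (p1 * (σ' * k')) :=
      (h3.mul' k).trans ((ae.of_eq (by rw [e5])).trans (h3'.mul' k').symm)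
    have h10 : ae (p1 * (π * k)) (p1 * (π' * k')) :=
      (h5.mul' k).trans ((ae.of_eq (by rw [e5])).trans (h5'.mul' k').symm)
    obtain rfl : j = j' := by
      by_contra h
      exact D'.disj j j' h _ _ h9 (h4.mul' k) ((h4'.mul' k').ae h9.symm) h8
    obtain rfl : i = i' := hR1 _ j i i' h1 (by rwa [← h2, h2'])
    cases ht : D.t i
    · refine feq_of_dn fun l => ⟨1, ?_⟩
      rw [mul_one, mm, mm]
      refine feq_ae _ (ae.ext (h10.mul' l) ?_)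
      by_contra h11
      have l1 := ((h7 ht).mul k).mul l
      have l2 := ((h7' ht).mul k').mul l
      rw [mul_assoc φ g', ← e5, ← mul_assoc φ g] at l2
      obtain ⟨l', h12⟩ := l1.mg l2 h11
      refine D'.ntr j (h2.trans ht) _ _ h12 (((h4.mul' k).mul' l).mul' l') ?_
      have := (h8.mul l).mul l'
      rwa [mm, mm, mm, mm, ← mul_assoc, ← mul_assoc (σ' * k')] at this
    · exact D.triv i ht _ _ h10 (h6.mul' k)
  · rw [e3] at hz
    obtain ⟨l, i, π, h1, h2, h3⟩ := D.cov _ z hz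
    obtain ⟨u, -, h4⟩ := red (p1 * h * l) (0, 0) (In.top _)
    obtain ⟨j, ⟨h5, u', h6, h7⟩, h8⟩ := hR2 (D.t i) i
      ⟨rfl, h2.meet ((((i1.mul p1).mul h).mul l).ae h1.symm)⟩ u
    obtain ⟨u'', -, h9⟩ := h4 u' ⟨_, self_cyl u', h6 (self_cyl u')⟩
    have h10 : In (r' * p1 * (h * (l * mC u''))) (D'.p j) :=
      (h7.mul (p1 * h * l * mC u'')).ae (h9.mC.left r')
    obtain ⟨σ, h11⟩ := exists_lk (φ * (h * (l * mC u''))) (p2 * (π * mC u''))
    have h12 : ae (p1 * σ) (r' * p1 * (h * (l * mC u''))) :=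
      h11.1.trans (ae.of_eq (by rw [← mul_assoc, f1]))
    refine ⟨l * mC u'', ⟨(j, i, σ, π * mC u'', h * (l * mC u'')), h8, h5, h12, h10.ae h12.symm,
      h1.mul (mC u''), h2.mul' _, fun _ => h11⟩, 1, (mul_one _).symm, ?_⟩
    rw [m1, ← mm, ← mm]
    exact h3.mul _

end Pool.Agent.H254Z.MF
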