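import Pool.Agent.H164Z.BsptDefs

/-!
# Comparison of cardinalities, well-foundedness principles and choice in a structure `(M, E)`
-/

set_option autoImplicit false

namespace Pool.Agent.H254Z.MF

open Pool.Agent.H164Z.Bspt

variable {M : Type} (E : M → M → Prop)

/-- `f` is a function from `X` to `Y`. -/
def IsFn (f X Y : M) : Prop :=
  (∀ p, E p f → ∃ x y, E x X ∧ E y Y ∧ IsOP E p x y) ∧ ∀ x, E x X → ∃! y, Rel E f x y

/-- `f` is an injection from `X` to `Y`. -/
def IsInj (f X Y : M) : Prop := IsFn E f X Y ∧ ∀ x x' y, Rel E f x y → Rel E f x' y → x = x'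

/-- `f` is a surjection from `X` onto `Y`. -/
def IsSurj (f X Y : M) : Prop := IsFn E f X Y ∧ ∀ y, E y Y → ∃ x, Rel E f x y

/-- `|X| ≤ |Y|` -/
def LeI (X Y : M) : Prop := ∃ f, IsInj E f X Y

/-- `|X| ≤* |Y|` -/
def LeS (X Y : M) : Prop := (∀ t, ¬ E t X) ∨ ∃ f, IsSurj E f Y X

/-- `|X| = |Y|` -/
def EqC (X Y : M) : Prop := ∃ f, IsInj E f X Y ∧ IsSurj E f X Y

/-- `A` is a function whose domain is the set of natural numbers. -/
def IsSeq (A : M) : Prop :=
  (∀ p, E p A → ∃ n y, IsNat E n ∧ IsOP E p n y) ∧ ∀ n, IsNat E n → ∃! y, Rel E A n y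

/-- `a = A n` and `a' = A (n + 1)` for the natural number `n`. -/
def Next (A n a a' : M) : Prop := IsNat E n ∧ Rel E A n a ∧ ∃ s, IsSucc E s n ∧ Rel E A s a'

/-- For sequences of sets `A n` and injections `F n : A (n + 1) → A n` there is `n` with
`|A n| ≤* |A (n + 1)|`. -/
def WFis4 : Prop :=
  ∀ A F, IsSeq E A → IsSeq E F → (∀ n a a' f, Next E A n a a' → Rel E F n f → IsInj E f a' a) →
    ∃ n a a', Next E A n a a' ∧ LeS E a a'

/-- For sequences of sets `A n` and surjections `F n : A n → A (n + 1)` there is `n` with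
`|A n| ≤* |A (n + 1)|`. -/
def WFss4 : Prop :=
  ∀ A F, IsSeq E A → IsSeq E F → (∀ n a a' f, Next E A n a a' → Rel E F n f → IsSurj E f a a') →
    ∃ n a a', Next E A n a a' ∧ LeS E a a'

/-- The axiom of choice: every set `A` of nonempty sets has a function `f` on `A` with
`f x ∈ x`. -/
def Choice : Prop :=
  ∀ A, (∀ x, E x A → ∃ y, E y x) → ∃ f U, IsFn E f A U ∧ ∀ x y, Rel E f x y → E y x

/-- The dual Cantor-Schroeder-Bernstein statement. -/
def DualCSB : Prop := ∀ X Y, LeS E X Y → LeS E Y X → EqC E X Y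

/-- A code of a cardinal: a nonempty set of pairwise equinumerous sets. -/
def IsCard (κ : M) : Prop := (∃ X, E X κ) ∧ ∀ X Y, E X κ → E Y κ → EqC E X Y

/-- The relation `r` between sets, read for codes of cardinals. -/
def OnCard (r : M → M → Prop) (κ μ : M) : Prop := ∀ X Y, E X κ → E Y μ → r X Y

/-- Every nonempty set of cardinals has an element `κ` with `κ ≤* μ` for each element `μ` that
is `r`-below `κ`. -/
def WF1 (r : M → M → Prop) : Prop :=
  ∀ C, (∃ κ, E κ C) → (∀ κ, E κ C → IsCard E κ) →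
    ∃ κ, E κ C ∧ ∀ μ, E μ C → OnCard E r μ κ → OnCard E (LeS E) κ μ

/-- Every `r`-descending sequence of cardinals has `n` with `K n ≤* K (n + 1)`. -/
def WF2 (r : M → M → Prop) : Prop :=
  ∀ K, IsSeq E K → (∀ n κ, Rel E K n κ → IsCard E κ) →
    (∀ n κ μ, Next E K n κ μ → OnCard E r μ κ) → ∃ n κ μ, Next E K n κ μ ∧ OnCard E (LeS E) κ μ

/-- Every `r`-descending sequence of sets has `n` with `|A n| ≤* |A (n + 1)|`. -/
def WF3 (r : M → M → Prop) : Prop :=
  ∀ A, IsSeq E A → (∀ n a a', Next E A n a a' → r a' a) → ∃ n a a', Next E A n a a' ∧ LeS E a a'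

end Pool.Agent.H254Z.MF
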