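import Pool.Agent.H254Z.MF.Names
import Pool.Agent.H982Z.Sym.Force

/-!
# Forcing of formulas over a monoid; comprehension
-/

set_option autoImplicit false

namespace Pool.Agent.H254Z.MF

open Pool.Agent.H164Z.Bspt
open Pool.Agent.H982Z.Sym (fOr fImp fIff fEx sat_or sat_imp sat_iff sat_ex bd fRepl sat_fRepl)

variable {M : Type} [Monoid M]

/-- The forcing relation. -/
def Force : Fml → (ℕ → Nm M) → Prop
  | .mem i j, v => fmem (v i) (v j)
  | .eq i j, v => feq (v i) (v j)
  | .neg φ, v => ∀ h : M, ¬ Force φ (v * h)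
  | .and φ ψ, v => Force φ v ∧ Force ψ v
  | .all φ, v => ∀ (h : M) (x : Nm M), Force φ (cons x (v * h))

theorem Force.mul {φ : Fml} : ∀ {v : ℕ → Nm M}, Force φ v → ∀ g : M, Force φ (v * g) := by
  induction φ with
  | mem i j => exact fun h g => fmem.mul h g
  | eq i j => exact fun h g => feq.mul h g
  | neg φ ih => intro v h g k; rw [vmm]; exact h _
  | and φ ψ ih ih' => exact fun h g => ⟨ih h.1 g, ih' h.2 g⟩
  | all φ ih => intro v h g k x; rw [vmm]; exact h _ x

theorem force_of_dn {φ : Fml} : ∀ {v : ℕ → Nm M},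
    (∀ h : M, ∃ l : M, Force φ (v * (h * l))) → Force φ v := by
  induction φ with
  | mem i j => exact fun h => fmem_of_dn h
  | eq i j => exact fun h => feq_of_dn h
  | neg φ ih =>
    intro v H h h1
    obtain ⟨l, h2⟩ := H h
    refine h2 1 ?_
    rw [vm1, ← vmm]
    exact h1.mul l
  | and φ ψ ih ih' =>
    exact fun H => ⟨ih fun h => (H h).imp fun _ h1 => h1.1, ih' fun h => (H h).imp fun _ h1 => h1.2⟩
  | all φ ih =>
    intro v H h x
    refine ih fun k => ?_
    obtain ⟨l, h1⟩ := H (h * k)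
    refine ⟨l, ?_⟩
    have := h1 1 (x * (k * l))
    rwa [vm1, mul_assoc, ← vmm, ← cons_m] at this

theorem exists_force_neg {φ : Fml} {v : ℕ → Nm M} (H : ¬ Force φ v) :
    ∃ h : M, Force (.neg φ) (v * h) := by
  by_contra h1
  refine H (force_of_dn fun h => ?_)
  by_contra h2
  exact h1 ⟨h, fun l h3 => h2 ⟨l, by rwa [vmm] at h3⟩⟩

theorem force_congr {φ : Fml} : ∀ {v w : ℕ → Nm M},
    (∀ i < bd φ, feq (v i) (w i)) → Force φ v → Force φ w := by
  induction φ with
  | mem i j =>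
    intro v w h h1
    exact (fmem.left h1 (h i (by simp only [bd]; omega))).right (h j (by simp only [bd]; omega))
  | eq i j =>
    intro v w h h1
    exact (h i (by simp only [bd]; omega)).symm.trans
      (feq.trans h1 (h j (by simp only [bd]; omega)))
  | neg φ ih =>
    intro v w h h1 g h2
    exact h1 g (ih (fun i hi => ((h i hi).mul g).symm) h2)
  | and φ ψ ih ih' =>
    intro v w h h1
    exact ⟨ih (fun i hi => h i (by simp only [bd]; omega)) h1.1,
      ih' (fun i hi => h i (by simp only [bd]; omega)) h1.2⟩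
  | all φ ih =>
    intro v w h h1 g x
    refine ih (fun i hi => ?_) (h1 g x)
    cases i with
    | zero => exact feq.rfl _
    | succ i => exact (h i (by simp only [bd]; omega)).mul g

theorem force_cons_congr {φ : Fml} {v : ℕ → Nm M} {x y : Nm M} (h : feq x y)
    (h1 : Force φ (cons x v)) : Force φ (cons y v) := by
  refine force_congr (fun i _ => ?_) h1
  cases i with
  | zero => exact h
  | succ i => exact feq.rfl _

theorem force_ren (φ : Fml) : ∀ (f : ℕ → ℕ) (v : ℕ → Nm M),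
    Force (φ.ren f) v ↔ Force φ (fun i => v (f i)) := by
  induction φ with
  | mem i j => intro f v; rfl
  | eq i j => intro f v; rfl
  | neg φ ih => intro f v; simp only [Fml.ren, Force, ih]; rfl
  | and φ ψ ih ih' => intro f v; simp only [Fml.ren, Force, ih, ih']
  | all φ ih =>
    intro f v
    simp only [Fml.ren, Force, ih]
    refine forall_congr' fun h => forall_congr' fun x => ?_
    have : (fun i => cons x (v * h) (liftR f i)) = cons x ((fun i => v (f i)) * h) := by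
      funext i; cases i <;> rfl
    rw [this]

/-! ### Derived connectives -/

theorem force_or {φ ψ : Fml} {v : ℕ → Nm M} : Force (fOr φ ψ) v ↔
    ∀ h : M, ∃ l : M, Force φ (v * (h * l)) ∨ Force ψ (v * (h * l)) := by
  constructor
  · intro H h
    by_contra h1
    refine H h ⟨fun l h2 => h1 ⟨l, Or.inl ?_⟩, fun l h2 => h1 ⟨l, Or.inr ?_⟩⟩ <;>
      rwa [vmm] at h2
  · intro H h h1
    obtain ⟨l, h2 | h2⟩ := H h
    · exact h1.1 l (by rwa [vmm])
    · exact h1.2 l (by rwa [vmm])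

theorem force_imp {φ ψ : Fml} {v : ℕ → Nm M} :
    Force (fImp φ ψ) v ↔ ∀ h : M, Force φ (v * h) → Force ψ (v * h) := by
  constructor
  · intro H h h1
    by_contra h2
    obtain ⟨l, h3⟩ := exists_force_neg h2
    refine H (h * l) ⟨?_, ?_⟩
    · rw [← vmm]; exact h1.mul l
    · rwa [← vmm]
  · intro H h h1
    exact h1.2 1 (by rw [vm1]; exact H h h1.1)

theorem force_iff {φ ψ : Fml} {v : ℕ → Nm M} :
    Force (fIff φ ψ) v ↔ ∀ h : M, (Force φ (v * h) ↔ Force ψ (v * h)) := by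
  change Force (fImp φ ψ) v ∧ Force (fImp ψ φ) v ↔ _
  rw [force_imp, force_imp]
  exact ⟨fun H h => ⟨H.1 h, H.2 h⟩, fun H => ⟨fun h => (H h).1, fun h => (H h).2⟩⟩

theorem force_ex {φ : Fml} {v : ℕ → Nm M} :
    Force (fEx φ) v ↔ ∀ h : M, ∃ (l : M) (x : Nm M), Force φ (cons x (v * (h * l))) := by
  constructor
  · intro H h
    by_contra h1
    refine H h fun k x l h2 => h1 ⟨k * l, x * l, ?_⟩
    rwa [cons_m, vmm, vmm] at h2
  · intro H h h1
    obtain ⟨l, x, h2⟩ := H h
    exact h1 l x 1 (by rwa [vm1, vmm])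

theorem force_ex_of {φ : Fml} {v : ℕ → Nm M} (x : Nm M) (H : Force φ (cons x v)) :
    Force (fEx φ) v :=
  force_ex.2 fun h => ⟨1, x * h, by rw [mul_one, ← cons_m]; exact H.mul h⟩

theorem Force.ex {φ : Fml} {v : ℕ → Nm M} (H : Force (fEx φ) v) :
    ∃ (l : M) (x : Nm M), Force φ (cons x (v * l)) := by
  have := force_ex.1 H 1
  simpa only [one_mul] using this

theorem Force.inst {φ : Fml} {v : ℕ → Nm M} (H : Force (.all φ) v) (x : Nm M) :
    Force φ (cons x v) := by
  have := H 1 x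
  rwa [vm1] at this

/-! ### Comprehension -/

/-- The name for the set of those `A i` that satisfy `ψ`. -/
def cmp (ψ : Fml) (v : ℕ → Nm M) (ι : Type) (A : ι → Nm M) : Nm M :=
  ⟨ι, A, fun i => ⟨fun h k => Force ψ (cons (A i * k) (v * h)), fun h k l H => by
    have := H.mul l
    rwa [cons_m, mm, vmm] at this⟩⟩

/-- The family `A` covers the class defined by `ψ`. -/
def Covers (ψ : Fml) (v : ℕ → Nm M) {ι : Type} (A : ι → Nm M) : Prop :=
  ∀ (h : M) z, Force ψ (cons z (v * h)) → ∃ (l : M) (i : ι) (k : M), feq (z * l) (A i * k)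

theorem fmem_cmp {ψ : Fml} {v : ℕ → Nm M} {ι : Type} {A : ι → Nm M} (H : Covers ψ v A)
    (z : Nm M) (g : M) : fmem z (cmp ψ v ι A * g) ↔ Force ψ (cons z (v * g)) := by
  constructor
  · intro h1
    refine force_of_dn fun h => ?_
    obtain ⟨l, _, h2, h3⟩ := h1 h
    obtain ⟨i, k, h4, rfl⟩ := (ch_res _ _ _ _).1 h2
    refine ⟨l, ?_⟩
    rw [cons_m, vmm]
    exact force_cons_congr h3.symm h4
  · intro h1 h
    have h2 := h1.mul h
    rw [cons_m, vmm] at h2
    obtain ⟨l, i, k, h3⟩ := H _ _ h2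
    rw [mm] at h3
    refine ⟨l, _, (ch_res _ _ _ _).2 ⟨i, k, ?_, rfl⟩, h3⟩
    have h4 := h1.mul (h * l)
    rw [cons_m, vmm] at h4
    exact force_cons_congr h3 h4

/-- A class with a small covering family of names is forced to be a set. -/
theorem force_set {ψ : Fml} {v : ℕ → Nm M} {ι : Type} {A : ι → Nm M} (H : Covers ψ v A) :
    Force (fEx (.all (fIff (.mem 0 1) (ψ.ren (liftR Nat.succ))))) v := by
  refine force_ex_of (cmp ψ v ι A) fun g z => force_iff.2 fun h => ?_
  rw [force_ren]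
  have : (fun i => (cons z (cons (cmp ψ v ι A) v * g) * h) (liftR Nat.succ i)) =
      cons (z * h) (v * (g * h)) := by
    funext i
    cases i with
    | zero => rfl
    | succ i => exact mm _ _ _
  rw [this]
  change fmem (z * h) (cmp ψ v ι A * g * h) ↔ _
  rw [mm]
  exact fmem_cmp H _ _

/-! ### Covering families -/

theorem covers_pair (v : ℕ → Nm M) (i j : ℕ) :
    Covers (fOr (.eq 0 (i + 1)) (.eq 0 (j + 1))) v (fun b : Bool => if b then v i else v j) := by
  intro h z H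
  obtain ⟨l, h1 | h1⟩ := force_or.1 H 1
  · rw [one_mul] at h1
    exact ⟨l, true, h * l, by rw [← mm]; exact h1⟩
  · rw [one_mul] at h1
    exact ⟨l, false, h * l, by rw [← mm]; exact h1⟩

theorem Ch.ch {x y z : Nm M} {g h : M} (h1 : Ch x g y) (h2 : Ch y h z) :
    ∃ (a : Σ j : x.ι, (x.A j).ι) (k : M), z = (x.A a.1).A a.2 * k := by
  obtain ⟨j, k, -, rfl⟩ := h1
  obtain ⟨j', k', -, rfl⟩ := (ch_res _ _ _ _).1 h2
  exact ⟨⟨j, j'⟩, k', rfl⟩

theorem covers_union (v : ℕ → Nm M) (i : ℕ) :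
    Covers (fEx (.and (.mem 0 (i + 2)) (.mem 1 0))) v
      (fun a : Σ j : (v i).ι, ((v i).A j).ι => ((v i).A a.1).A a.2) := by
  intro h z H
  obtain ⟨l, y, h1, h2⟩ := H.ex
  change fmem y (v i * h * l) at h1
  change fmem (z * l) y at h2
  rw [mm] at h1
  obtain ⟨l', y', h3, h4⟩ := h1.ex
  have h5 := (h2.mul l').right h4
  rw [← m1 y'] at h5
  obtain ⟨l'', z', h6, h7⟩ := h5.ex
  obtain ⟨a, k, rfl⟩ := h3.ch h6
  exact ⟨l * l' * l'', a, k, by rwa [mm, mm, ← mul_assoc] at h7⟩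

theorem covers_sep (φ : Fml) (v : ℕ → Nm M) (i : ℕ) :
    Covers (.and (.mem 0 (i + 1)) φ) v (v i).A := by
  intro h z H
  obtain ⟨l, _, ⟨j, k, -, rfl⟩, h2⟩ := (show fmem z (v i * h) from H.1).ex
  exact ⟨l, j, k, h2⟩

theorem covers_power (v : ℕ → Nm M) (i : ℕ) :
    Covers (.all (fImp (.mem 0 1) (.mem 0 (i + 2)))) v
      (fun c : (v i).ι → Cl M => (⟨(v i).ι, (v i).A, c⟩ : Nm M)) := by
  intro h z H
  refine ⟨1, fun j => ⟨fun a k => fmem ((v i).A j * k) (z * a), fun a k l h1 => by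
    have := h1.mul l
    rwa [mm, mm] at this⟩, 1, ?_⟩
  rw [m1, m1]
  refine feq_of_mem (fun a w hw => ?_) ?_
  · refine fmem_of_dn fun b => ?_
    have h1 : fmem (w * b) (v i * h * a * b) :=
      force_imp.1 (H a w) b (hw.fmem.mul b)
    rw [mm, mm] at h1
    obtain ⟨l, _, ⟨j, k, -, rfl⟩, h2⟩ := h1.ex
    rw [mm] at h2
    refine ⟨l, fmem.left ?_ h2.symm⟩
    rw [mm]
    refine Ch.fmem ⟨j, k, ?_, rfl⟩
    change fmem _ _
    rw [← mm]
    exact (hw.fmem.mul _).left h2
  · rintro a _ ⟨j, k, h1, rfl⟩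
    exact h1

theorem exists_covers_repl (φ : Fml) (v : ℕ → Nm M) (i : ℕ) :
    ∃ (ι : Type) (A : ι → Nm M), Covers (fRepl φ i) v A := by
  let ι : Type := {a : (v i).ι × M × M //
    ∃ y, Force φ (cons y (cons ((v i).A a.1 * a.2.1) (v * a.2.2)))}
  refine ⟨ι, fun a => a.2.choose, fun h z H => ?_⟩
  obtain ⟨l, x, h1, h2, h3⟩ := H.ex
  change fmem x (v i * h * l) at h1
  rw [mm] at h1
  obtain ⟨l', _, ⟨j, k, -, rfl⟩, h4⟩ := h1.ex
  rw [force_ren] at h2
  replace h2 : Force φ (cons (z * l) (cons x (v * h * l))) := by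
    refine force_congr (fun k _ => ?_) h2
    match k with
    | 0 => exact feq.rfl _
    | 1 => exact feq.rfl _
    | k + 2 => exact feq.rfl _
  have hcong : ∀ (y a b : Nm M) (w : ℕ → Nm M), feq a b → Force φ (cons y (cons a w)) →
      Force φ (cons y (cons b w)) := fun y a b w hab h5 => by
    refine force_congr (fun k _ => ?_) h5
    match k with
    | 0 => exact feq.rfl _
    | 1 => exact hab
    | k + 2 => exact feq.rfl _
  have h5 : ∃ y, Force φ (cons y (cons ((v i).A j * k) (v * (h * l * l')))) := by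
    have := h2.mul l'
    rw [cons_m, cons_m, vmm v, vmm] at this
    exact ⟨_, hcong _ _ _ _ h4 this⟩
  refine ⟨l * l', ⟨(j, k, h * l * l'), h5⟩, 1, ?_⟩
  have h6 := h5.choose_spec
  have h7 := force_imp.1 (h3 l' h5.choose) 1 (by
    rw [force_ren, vm1]
    have h8 := hcong _ _ _ _ h4.symm h6
    refine force_congr (fun k _ => ?_) h8
    match k with
    | 0 => exact feq.rfl _
    | 1 => exact feq.rfl _
    | k + 2 => exact feq.of_eq (show v k * (h * l * l') = v k * h * l * l' by rw [mm, mm, mul_assoc]))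
  rw [vm1] at h7
  rw [m1, ← mm]
  exact feq.symm h7

/-! ### Pairs -/

/-- The name of an unordered pair. -/
def upN (a b : Nm M) : Nm M :=
  ⟨Bool, fun t => if t then a else b, fun _ => ⟨fun h k => h = k, fun _ _ _ H => by rw [H]⟩⟩

theorem ch_upN {a b z : Nm M} {h : M} : Ch (upN a b) h z ↔ z = a * h ∨ z = b * h := by
  constructor
  · rintro ⟨t, k, rfl, rfl⟩
    cases t
    · exact Or.inr rfl
    · exact Or.inl rfl
  · rintro (rfl | rfl)
    · exact ⟨true, h, rfl, rfl⟩
    · exact ⟨false, h, rfl, rfl⟩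

/-- The name of an ordered pair. -/
def opN (a b : Nm M) : Nm M := upN (upN a a) (upN a b)

/-- `v i = {v j, v k}` -/
def fUP (i j k : ℕ) : Fml :=
  .all (fIff (.mem 0 (i + 1)) (fOr (.eq 0 (j + 1)) (.eq 0 (k + 1))))

/-- `v i = (v j, v k)` -/
def fOP (i j k : ℕ) : Fml :=
  fEx (fEx (.and (fUP 1 (j + 2) (j + 2)) (.and (fUP 0 (j + 2) (k + 2)) (fUP (i + 2) 1 0))))

theorem force_fUP {v : ℕ → Nm M} {i j k : ℕ} {a b : Nm M} {g : M} (hi : feq (v i) (upN a b * g))
    (hj : feq (v j) (a * g)) (hk : feq (v k) (b * g)) : Force (fUP i j k) v := by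
  intro h z
  refine force_iff.2 fun l => ?_
  rw [force_or]
  change fmem (z * l) (v i * h * l) ↔ ∀ m : M, ∃ n : M,
    feq (z * l * (m * n)) (v j * h * l * (m * n)) ∨ feq (z * l * (m * n)) (v k * h * l * (m * n))
  constructor
  · intro H m
    obtain ⟨n, w, h1, h2⟩ := (H.right ((hi.mul h).mul l)) m
    rw [ch_res, ch_res, ch_res, ch_upN] at h1
    refine ⟨n, h1.imp ?_ ?_⟩
    · rintro rfl
      refine h2.trans ?_
      rw [← mm, ← mm, ← mm]
      exact (((hj.mul h).mul l).mul _).symm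
    · rintro rfl
      refine h2.trans ?_
      rw [← mm, ← mm, ← mm]
      exact (((hk.mul h).mul l).mul _).symm
  · intro H
    refine fmem.right (fun m => ?_) ((hi.mul h).mul l).symm
    obtain ⟨n, h1 | h1⟩ := H m
    · refine ⟨n, _, ?_, h1.trans (((hj.mul h).mul l).mul _)⟩
      rw [ch_res, ch_res, ch_res, ch_upN, mm, mm, mm]
      exact Or.inl rfl
    · refine ⟨n, _, ?_, h1.trans (((hk.mul h).mul l).mul _)⟩
      rw [ch_res, ch_res, ch_res, ch_upN, mm, mm, mm]
      exact Or.inr rfl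

theorem force_fOP {v : ℕ → Nm M} {i j k : ℕ} {a b : Nm M} {g : M} (hi : feq (v i) (opN a b * g))
    (hj : feq (v j) (a * g)) (hk : feq (v k) (b * g)) : Force (fOP i j k) v :=
  force_ex_of (upN a a * g) (force_ex_of (upN a b * g)
    ⟨force_fUP (feq.rfl _) hj hj, force_fUP (feq.rfl _) hj hk,
      force_fUP hi (feq.rfl _) (feq.rfl _)⟩)

theorem sat_fUP {N : Type} (E : N → N → Prop) (v : ℕ → N) (i j k : ℕ) :
    Sat E (fUP i j k) v ↔ ∀ s, E s (v i) ↔ s = v j ∨ s = v k :=
  forall_congr' fun _ => (sat_iff _ _ _ _).trans (iff_congr Iff.rfl (sat_or _ _ _ _))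

theorem sat_fOP {N : Type} {E : N → N → Prop} (hE : IsZF E) (v : ℕ → N) (i j k : ℕ) :
    Sat E (fOP i j k) v ↔ IsOP E (v i) (v j) (v k) := by
  simp only [fOP, sat_ex, Sat, sat_fUP]
  change (∃ u w, (∀ s, E s u ↔ s = v j ∨ s = v j) ∧ (∀ s, E s w ↔ s = v j ∨ s = v k) ∧
    ∀ s, E s (v i) ↔ s = u ∨ s = w) ↔ _
  constructor
  · rintro ⟨u, w, h1, h2, h3⟩ t
    refine (h3 t).trans (or_congr ⟨?_, fun h => ?_⟩ ⟨?_, fun h => ?_⟩)
    · rintro rfl s; rw [h1, or_self]
    · exact hE.ext _ _ fun s => by rw [h, h1, or_self]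
    · rintro rfl; exact h2
    · exact hE.ext _ _ fun s => by rw [h, h2]
  · intro H
    obtain ⟨u, hu⟩ := hE.pair (v j) (v j)
    obtain ⟨w, hw⟩ := hE.pair (v j) (v k)
    refine ⟨u, w, hu, hw, fun t => (H t).trans (or_congr ⟨fun h => ?_, ?_⟩ ⟨fun h => ?_, ?_⟩)⟩
    · exact hE.ext _ _ fun s => by rw [h, hu, or_self]
    · rintro rfl s; rw [hu, or_self]
    · exact hE.ext _ _ fun s => by rw [h, hw]
    · rintro rfl; exact hw

end Pool.Agent.H254Z.MF
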