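import Pool.Agent.H254Z.MF.Tail
import Pool.Agent.H254Z.MF.Defs

/-!
# A model of ZF in which the surjective comparison of sets is well-founded and choice fails
-/

set_option autoImplicit false

namespace Pool.Agent.H254Z.MF

open Pool.Agent.H164Z.Bspt

variable {N : Type} (S : Str N)

theorem ex_rel (R : N → N → Prop) (hR : D2 S R) (a b : N) :
    ∃ f, (∀ p, S.E p f → ∃ x y, S.E x a ∧ S.E y b ∧ IsOP S.E p x y) ∧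
      ∀ x y, Rel S.E f x y ↔ S.E x a ∧ S.E y b ∧ R x y := by
  obtain ⟨U, hU⟩ := S.ex_union2 a b
  obtain ⟨P₁, h1⟩ := S.zf.power U
  obtain ⟨P₂, h2⟩ := S.zf.power P₁
  obtain ⟨f, hf⟩ := S.sep (fun p => ∃ x y, S.E x a ∧ S.E y b ∧ IsOP S.E p x y ∧ R x y) P₂
  refine ⟨f, fun p hp => ?_, fun x y => ⟨?_, fun ⟨hx, hy, h⟩ => ?_⟩⟩
  · obtain ⟨x, y, h3, h4, h5, -⟩ := ((hf p).1 hp).2
    exact ⟨x, y, h3, h4, h5⟩
  · rintro ⟨p, hp, h3⟩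
    obtain ⟨x', y', h4, h5, h6, h7⟩ := ((hf p).1 hp).2
    obtain ⟨rfl, rfl⟩ := S.op_inj h3 h6
    exact ⟨h4, h5, h7⟩
  · obtain ⟨p, hp⟩ := S.ex_op x y
    refine ⟨p, (hf p).2 ⟨(h2 p).2 fun t ht => (h1 t).2 fun s hs => (hU s).2 ?_,
      x, y, hx, hy, hp, h⟩, hp⟩
    rcases (hp t).1 ht with h3 | h3
    · exact Or.inl ((h3 s).1 hs ▸ hx)
    · rcases (h3 s).1 hs with rfl | rfl
      · exact Or.inl hx
      · exact Or.inr hy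

variable {S}

theorem IsFn.rel {f a b x y : N} (h : IsFn S.E f a b) (hr : Rel S.E f x y) :
    S.E x a ∧ S.E y b := by
  obtain ⟨p, hp, h1⟩ := hr
  obtain ⟨x', y', h2, h3, h4⟩ := h.1 p hp
  obtain ⟨rfl, rfl⟩ := S.op_inj h1 h4
  exact ⟨h2, h3⟩

theorem PS.trans {a b c : N} (h : PS S.E a b) (h' : PS S.E b c) : PS S.E a c := by
  obtain ⟨R, h1, h2⟩ := h
  obtain ⟨R', h3, h4⟩ := h'
  obtain ⟨f, -, hf⟩ := ex_rel S (fun z x => ∃ y, Rel S.E R' z y ∧ Rel S.E R y x) (D2.of _) c a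
  refine ⟨f, fun z x x' h5 h6 => ?_, fun x hx => ?_⟩
  · obtain ⟨y, h7, h8⟩ := ((hf _ _).1 h5).2.2
    obtain ⟨y', h9, h10⟩ := ((hf _ _).1 h6).2.2
    exact h1 y x x' h8 (h3 z y' y h9 h7 ▸ h10)
  · obtain ⟨y, hy, h5⟩ := h2 x hx
    obtain ⟨z, hz, h6⟩ := h4 y hy
    exact ⟨z, hz, (hf _ _).2 ⟨hz, hx, y, h6, h5⟩⟩

theorem PS.leS {a b : N} (h : PS S.E a b) : LeS S.E a b := by
  by_cases h0 : ∀ t, ¬ S.E t a
  · exact Or.inl h0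
  push Not at h0
  obtain ⟨x₀, h0⟩ := h0
  obtain ⟨R, h1, h2⟩ := h
  obtain ⟨f, h3, hf⟩ := ex_rel S (fun y x => Rel S.E R y x ∨
    ((¬ ∃ x', S.E x' a ∧ Rel S.E R y x') ∧ x = x₀)) (D2.of _) b a
  refine Or.inr ⟨f, ⟨h3, fun y hy => ?_⟩, fun x hx => ?_⟩
  · by_cases h4 : ∃ x', S.E x' a ∧ Rel S.E R y x'
    · obtain ⟨x, h5, h6⟩ := h4
      refine ⟨x, (hf _ _).2 ⟨hy, h5, Or.inl h6⟩, fun x' h7 => ?_⟩
      rcases ((hf _ _).1 h7).2.2 with h8 | h8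
      · exact h1 y x' x h8 h6
      · exact absurd ⟨x, h5, h6⟩ h8.1
    · refine ⟨x₀, (hf _ _).2 ⟨hy, h0, Or.inr ⟨h4, rfl⟩⟩, fun x' h7 => ?_⟩
      obtain ⟨-, h8, h9 | h9⟩ := (hf _ _).1 h7
      · exact absurd ⟨x', h8, h9⟩ h4
      · exact h9.2
  · obtain ⟨y, hy, h4⟩ := h2 x hx
    exact ⟨y, (hf _ _).2 ⟨hy, hx, Or.inl h4⟩⟩

theorem IsSurj.ps {f a b : N} (h : IsSurj S.E f b a) : PS S.E a b :=
  ⟨f, fun y _ _ h1 h2 => (h.1.2 y (h.1.rel h1).1).unique h1 h2, fun x hx => by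
    obtain ⟨y, hy⟩ := h.2 x hx
    exact ⟨y, (h.1.rel hy).1, hy⟩⟩

theorem LeS.ps {a b : N} (h : LeS S.E a b) : PS S.E a b := by
  rcases h with h | ⟨f, h⟩
  · exact ⟨a, fun _ _ _ ⟨p, hp, _⟩ => absurd hp (h p), fun x hx => absurd hx (h x)⟩
  · exact h.ps

theorem IsInj.ps {f a b : N} (h : IsInj S.E f a b) : PS S.E a b := by
  obtain ⟨g, -, hg⟩ := ex_rel S (fun y x => Rel S.E f x y) (D2.of _) b a
  refine ⟨g, fun y x x' h1 h2 => h.2 x x' y ((hg _ _).1 h1).2.2 ((hg _ _).1 h2).2.2,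
    fun x hx => ?_⟩
  obtain ⟨y, hy, -⟩ := h.1.2 x hx
  exact ⟨y, (h.1.rel hy).2, (hg _ _).2 ⟨(h.1.rel hy).2, hx, hy⟩⟩

theorem LeI.ps {a b : N} (h : LeI S.E a b) : PS S.E a b := by
  obtain ⟨f, h⟩ := h
  exact h.ps

theorem ps_min {inv : N → Bool → Cardinal.{0}} (H : ∀ a b, inv a ≤ inv b → PS S.E a b)
    (C : N → Prop) (h : ∃ a, C a) : ∃ a, C a ∧ ∀ b, C b → PS S.E b a → PS S.E a b := by
  by_contra h1
  push Not at h1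
  choose g h2 h3 h4 using h1
  obtain ⟨a, ha⟩ := h
  let s : ℕ → {a // C a} := fun n => Nat.rec ⟨a, ha⟩ (fun _ b => ⟨g b.1 b.2, h2 b.1 b.2⟩) n
  have h5 : ∀ m n, m ≤ n → PS S.E (s n).1 (s m).1 := fun m n h => by
    induction n, h using Nat.le_induction with
    | base => exact H _ _ le_rfl
    | succ k _ ih => exact (h3 (s k).1 (s k).2).trans ih
  obtain ⟨m, n, h6, h7⟩ := wellQuasiOrdered_le (α := Bool → Cardinal.{0}) fun n => inv (s n).1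
  exact h4 (s m).1 (s m).2 ((H _ _ h7).trans (h5 (m + 1) n h6))

theorem IsSeq.next {A n a : N} (h : IsSeq S.E A) (hn : IsNat S.E n) (ha : Rel S.E A n a) :
    ∃ s a', IsNat S.E s ∧ Rel S.E A s a' ∧ Next S.E A n a a' := by
  obtain ⟨s, hs⟩ := S.ex_succ n
  obtain ⟨a', h1, -⟩ := h.2 s (S.nat_succ hn hs)
  exact ⟨s, a', S.nat_succ hn hs, h1, hn, ha, s, hs, h1⟩

theorem IsSeq.ne {A : N} (h : IsSeq S.E A) : ∃ a n, IsNat S.E n ∧ Rel S.E A n a := by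
  obtain ⟨e, he⟩ := S.ex_empty
  obtain ⟨a, h1, -⟩ := h.2 e (S.nat_empty he)
  exact ⟨a, e, S.nat_empty he, h1⟩

section
variable (H : ∀ C : N → Prop, (∃ a, C a) → ∃ a, C a ∧ ∀ b, C b → PS S.E b a → PS S.E a b)
  {r : N → N → Prop} (hr : ∀ a b, r a b → PS S.E a b)
include H hr

theorem wf3 : WF3 S.E r := fun A hA h => by
  obtain ⟨a, ⟨n, h1, h2⟩, h3⟩ := H (fun a => ∃ n, IsNat S.E n ∧ Rel S.E A n a) hA.ne
  obtain ⟨s, a', h4, h5, h6⟩ := hA.next h1 h2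
  exact ⟨n, a, a', h6, (h3 a' ⟨s, h4, h5⟩ (hr _ _ (h n a a' h6))).leS⟩

theorem card_min (C : N → Prop) (h : ∃ κ, C κ) (hC : ∀ κ, C κ → IsCard S.E κ) :
    ∃ κ, C κ ∧ ∀ μ, C μ → OnCard S.E r μ κ → OnCard S.E (LeS S.E) κ μ := by
  obtain ⟨κ₀, h0⟩ := h
  obtain ⟨a₀, h0'⟩ := (hC κ₀ h0).1
  obtain ⟨a, ⟨κ, h1, h2⟩, h3⟩ := H (fun a => ∃ κ, C κ ∧ S.E a κ) ⟨a₀, κ₀, h0, h0'⟩
  refine ⟨κ, h1, fun μ h4 h5 X Y hX hY => PS.leS ?_⟩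
  obtain ⟨f, h6, -⟩ := (hC κ h1).2 X a hX h2
  exact h6.ps.trans (h3 Y ⟨μ, h4, hY⟩ (hr _ _ (h5 Y a hY h2)))

theorem wf1 : WF1 S.E r := fun C h hC => card_min H hr (fun κ => S.E κ C) h hC

theorem wf2 : WF2 S.E r := fun K hK hC h => by
  obtain ⟨κ, ⟨n, h1, h2⟩, h3⟩ := card_min H hr (fun κ => ∃ n, IsNat S.E n ∧ Rel S.E K n κ) hK.ne
    fun κ ⟨n, _, h⟩ => hC n κ h
  obtain ⟨s, μ, h4, h5, h6⟩ := hK.next h1 h2
  exact ⟨n, κ, μ, h6, h3 μ ⟨s, h4, h5⟩ (h n κ μ h6)⟩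

end

theorem main : ∃ (M : Type) (E : M → M → Prop), IsZF E ∧
    (WF1 E (LeI E) ∧ WF2 E (LeI E) ∧ WF3 E (LeI E) ∧ WFis4 E) ∧
    (WF1 E (LeS E) ∧ WF2 E (LeS E) ∧ WF3 E (LeS E) ∧ WFss4 E) ∧ ¬ DualCSB E ∧ ¬ Choice E := by
  obtain ⟨N, S, inv, H, Φ, R, h1, h2, h3, h4, h5, h6⟩ := exists_model
  have H' := ps_min H
  have hi : ∀ a b, LeI S.E a b → PS S.E a b := fun _ _ => LeI.ps
  have hs : ∀ a b, LeS S.E a b → PS S.E a b := fun _ _ => LeS.ps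
  refine ⟨N, S.E, S.zf, ⟨wf1 H' hi, wf2 H' hi, wf3 H' hi, fun A F hA hF h => ?_⟩,
    ⟨wf1 H' hs, wf2 H' hs, wf3 H' hs, fun A F hA hF h => ?_⟩, fun h => ?_, fun h => ?_⟩
  · refine wf3 H' hi A hA fun n a a' hn => ?_
    obtain ⟨f, hf, -⟩ := hF.2 n hn.1
    exact ⟨f, h n a a' f hn hf⟩
  · refine wf3 H' hs A hA fun n a a' hn => ?_
    obtain ⟨f, hf, -⟩ := hF.2 n hn.1
    exact Or.inr ⟨f, h n a a' f hn hf⟩
  · obtain ⟨f, hf, -⟩ := h Φ R h4.leS h5.leS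
    refine h6 ⟨f, fun x hx => ?_, fun x z z' i1 i2 => (hf.1.2 x (hf.1.rel i1).1).unique i1 i2, hf.2⟩
    obtain ⟨z, hz, -⟩ := hf.1.2 x hx
    exact ⟨z, (hf.1.rel hz).2, hz⟩
  · obtain ⟨f, U, hf, h7⟩ := h Φ h1
    refine h6 ⟨f, fun x hx => ?_, fun x z z' i1 i2 => (hf.2 x (hf.rel i1).1).unique i1 i2,
      fun x x' z i1 i2 => h3 x (hf.rel i1).1 x' (hf.rel i2).1 z (h7 _ _ i1) (h7 _ _ i2)⟩
    obtain ⟨z, hz, -⟩ := hf.2 x hx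
    exact ⟨z, h2 x hx z (h7 _ _ hz), hz⟩

end Pool.Agent.H254Z.MF
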