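import Pool.Agent.H254Z.MF.Force

/-!
# The countable model of ZF given by forcing over a monoid
-/

set_option autoImplicit false

namespace Pool.Agent.H254Z.MF

open Pool.Agent.H164Z.Bspt Filter
open Pool.Agent.H982Z.Sym (fOr fImp fIff fEx sat_or sat_imp sat_iff sat_ex bd fRepl sat_fRepl)

variable {M : Type} [Monoid M]

/-- A generic sequence of stages. -/
structure Mod (M : Type) [Monoid M] where
  /-- the names at a stage -/
  v : ℕ → ℕ → Nm M
  ext : ∀ b, ∀ᶠ m in atTop, ∀ m' ≥ m, ∃ h : M, ∀ i < b, v m' i = v m i * h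
  dec : ∀ φ, (∀ᶠ m in atTop, Force φ (v m)) ∨ ∀ᶠ m in atTop, Force (.neg φ) (v m)
  wit : ∀ φ, (∀ᶠ m in atTop, Force (.all φ) (v m)) ∨
    ∃ k, ∀ᶠ m in atTop, Force (.neg φ) (cons (v m k) (v m))
  child : ∀ k l, (∀ᶠ m in atTop, ¬ fmem (v m k) (v m l)) ∨
    ∃ j, ∀ᶠ m in atTop, Ch (v m l) 1 (v m j) ∧ feq (v m k) (v m j)

/-- Extension of finite lists of names. -/
def Ext (q p : ℕ × (ℕ → Nm M)) : Prop := p.1 ≤ q.1 ∧ ∃ h : M, ∀ i < p.1, q.2 i = p.2 i * h

theorem Ext.refl (p : ℕ × (ℕ → Nm M)) : Ext p p := ⟨le_rfl, 1, fun _ _ => (m1 _).symm⟩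

theorem Ext.trans {p q r : ℕ × (ℕ → Nm M)} (h : Ext r q) (h' : Ext q p) : Ext r p := by
  obtain ⟨h1, a, h2⟩ := h
  obtain ⟨h3, b, h4⟩ := h'
  exact ⟨h3.trans h1, b * a, fun i hi => by rw [h2 i (hi.trans_le h3), h4 i hi, mm]⟩

theorem exists_seq {T : Type 1} [Nonempty T] (R : T → T → Prop) (hr : ∀ p, R p p)
    (ht : ∀ p q r, R r q → R q p → R r p) {J : Type} [Countable J] [Nonempty J]
    (D : J → T → Prop) (hD : ∀ j p, ∃ q, R q p ∧ D j q) :
    ∃ s : ℕ → T, (∀ m m', m ≤ m' → R (s m') (s m)) ∧ ∀ j, ∃ m, D j (s m) := by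
  obtain ⟨e, he⟩ := exists_surjective_nat J
  choose g hg1 hg2 using hD
  let s : ℕ → T := fun n => Nat.rec (Classical.arbitrary T) (fun n p => g (e n) p) n
  refine ⟨s, fun m m' h => ?_, fun j => ?_⟩
  · induction m', h using Nat.le_induction with
    | base => exact hr _
    | succ k _ ih => exact ht _ _ _ (hg1 (e k) (s k)) ih
  · obtain ⟨n, rfl⟩ := he j
    exact ⟨n + 1, hg2 (e n) (s n)⟩

/-- The empty name. -/
def emp : Nm M := ⟨PEmpty, PEmpty.elim, PEmpty.elim⟩

theorem exists_mod (X : Nm M → Prop) (hX : ∀ x : Nm M, ∃ h : M, X (x * h))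
    (hX' : ∀ (x : Nm M) (h : M), X x → X (x * h)) :
    ∃ G : Mod M, ∀ k, ∀ᶠ m in atTop, X (G.v m k) := by
  classical
  have : Nonempty (ℕ × (ℕ → Nm M)) := ⟨(0, fun _ => emp)⟩
  let D : (ℕ ⊕ Fml) ⊕ Fml ⊕ ℕ × ℕ → ℕ × (ℕ → Nm M) → Prop := fun j p => match j with
    | .inl (.inl k) => k < p.1 ∧ X (p.2 k)
    | .inl (.inr φ) => bd φ ≤ p.1 ∧ (Force φ p.2 ∨ Force (.neg φ) p.2)
    | .inr (.inl φ) => bd φ ≤ p.1 ∧ (Force (.all φ) p.2 ∨
        ∃ k < p.1, Force (.neg φ) (cons (p.2 k) p.2))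
    | .inr (.inr a) => a.1 < p.1 ∧ a.2 < p.1 ∧ ((∀ h : M, ¬ fmem (p.2 a.1 * h) (p.2 a.2 * h)) ∨
        ∃ j < p.1, Ch (p.2 a.2) 1 (p.2 j) ∧ feq (p.2 a.1) (p.2 j))
  obtain ⟨s, h1, h2⟩ := exists_seq Ext Ext.refl (fun _ _ _ => Ext.trans) D (by
    rintro ((k | φ) | φ | ⟨k, l⟩) ⟨n, v⟩
    · obtain ⟨h, hh⟩ := hX (v k)
      exact ⟨(n + k + 1, v * h), ⟨by simp only; omega, h, fun _ _ => rfl⟩, by simp only; omega, hh⟩
    · by_cases h : Force φ v
      · exact ⟨(n + bd φ, v), ⟨by simp only; omega, 1, fun _ _ => (m1 _).symm⟩,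
          by simp only; omega, Or.inl h⟩
      · obtain ⟨g, hg⟩ := exists_force_neg h
        exact ⟨(n + bd φ, v * g), ⟨by simp only; omega, g, fun _ _ => rfl⟩,
          by simp only; omega, Or.inr hg⟩
    · by_cases h : Force (.all φ) v
      · exact ⟨(n + bd φ, v), ⟨by simp only; omega, 1, fun _ _ => (m1 _).symm⟩,
          by simp only; omega, Or.inl h⟩
      · obtain ⟨g, hg⟩ := not_forall.1 h
        obtain ⟨x, hx⟩ := not_forall.1 hg
        obtain ⟨l, hl⟩ := exists_force_neg hx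
        rw [cons_m, vmm] at hl
        refine ⟨(n + bd φ + 1, Function.update (v * (g * l)) (n + bd φ) (x * l)),
          ⟨by simp only; omega, g * l, fun i hi => Function.update_of_ne (by
            simp only at hi; omega) _ _⟩, by simp only; omega,
          Or.inr ⟨n + bd φ, by simp only; omega, force_congr (fun i hi => ?_) hl⟩⟩
        cases i with
        | zero =>
          exact feq.of_eq (Function.update_self (n + bd φ) (x * l) (v * (g * l))).symm
        | succ i =>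
          have h5 : i ≠ n + bd φ := by simp only [bd] at hi; omega
          have h6 := Function.update_of_ne h5 (x * l) (v * (g * l))
          exact feq.of_eq h6.symm
    · by_cases h : ∀ h : M, ¬ fmem (v k * h) (v l * h)
      · exact ⟨(n + k + l + 1, v), ⟨by simp only; omega, 1, fun _ _ => (m1 _).symm⟩,
          by simp only; omega, by simp only; omega, Or.inl h⟩
      · push Not at h
        obtain ⟨g, hg⟩ := h
        obtain ⟨a, z, h3, h4⟩ := hg.ex
        refine ⟨(n + k + l + 2, Function.update (v * (g * a)) (n + k + l + 1) z),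
          ⟨by simp only; omega, g * a, fun i hi => Function.update_of_ne (by
            simp only at hi; omega) _ _⟩, by simp only; omega, by simp only; omega,
          Or.inr ⟨n + k + l + 1, by simp only; omega, ?_⟩⟩
        simp only
        rw [Function.update_self, Function.update_of_ne (by omega),
          Function.update_of_ne (by omega), vm_apply, vm_apply, ch_res, mul_one, ← mm]
        exact ⟨h3, h4⟩)
  have pers : ∀ (S : (ℕ → Nm M) → Prop) (m : ℕ), (∀ w (h : M), (∀ i < (s m).1,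
      w i = (s m).2 i * h) → S w) → ∀ᶠ m' in atTop, S (s m').2 := fun S m H =>
    (eventually_ge_atTop m).mono fun m' hm => by
      obtain ⟨h, hh⟩ := (h1 m m' hm).2
      exact H _ h hh
  have pers' : ∀ (φ : Fml) (m : ℕ), bd φ ≤ (s m).1 → Force φ (s m).2 →
      ∀ᶠ m' in atTop, Force φ (s m').2 := fun φ m hb H => pers _ m fun w h hw =>
    force_congr (fun i hi => feq.of_eq (hw i (hi.trans_le hb)).symm) (H.mul h)
  refine ⟨⟨fun m => (s m).2, fun b => ?_, fun φ => ?_, fun φ => ?_, fun k l => ?_⟩, fun k => ?_⟩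
  · obtain ⟨m, hm, -⟩ := h2 (.inl (.inl b))
    refine (eventually_ge_atTop m).mono fun m' hm' m'' hm'' => ?_
    obtain ⟨h, hh⟩ := (h1 m' m'' hm'').2
    exact ⟨h, fun i hi => hh i (hi.trans (hm.trans_le (h1 m m' hm').1))⟩
  · obtain ⟨m, hm, h⟩ := h2 (.inl (.inr φ))
    exact h.imp (pers' φ m hm) (pers' (.neg φ) m hm)
  · obtain ⟨m, hm, h⟩ := h2 (.inr (.inl φ))
    refine h.imp (pers' (.all φ) m hm) ?_
    rintro ⟨k, hk, h⟩
    refine ⟨k, pers (fun w => Force (.neg φ) (cons (w k) w)) m fun w g hw =>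
      force_congr (fun i hi => ?_) (h.mul g)⟩
    cases i with
    | zero => exact feq.of_eq (hw k hk).symm
    | succ i => exact feq.of_eq (hw i (by simp only [bd] at hi; omega)).symm
  · obtain ⟨m, hk, hl, h⟩ := h2 (.inr (.inr (k, l)))
    refine h.imp (fun h => pers (fun w => ¬ fmem (w k) (w l)) m fun w g hw => ?_) ?_
    · rw [hw k hk, hw l hl]; exact h g
    · rintro ⟨j, hj, h3, h4⟩
      refine ⟨j, pers (fun w => Ch (w l) 1 (w j) ∧ feq (w k) (w j)) m fun w g hw => ?_⟩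
      rw [hw k hk, hw l hl, hw j hj, ch_res, mul_one]
      exact ⟨by simpa only [one_mul] using h3.mul g, h4.mul g⟩
  · obtain ⟨m, hm, h⟩ := h2 (.inl (.inl k))
    exact pers (fun w => X (w k)) m fun w g hw => by rw [hw k hm]; exact hX' _ g h

namespace Mod

variable (G : Mod M)

/-- the setoid on indices -/
def st : Setoid ℕ := ⟨fun k l => ∀ᶠ m in atTop, feq (G.v m k) (G.v m l),
  fun _ => Eventually.of_forall fun _ => feq.rfl _, fun h => h.mono fun _ => feq.symm,
  fun h h' => (h.and h').mono fun _ h => h.1.trans h.2⟩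

/-- The model. -/
def N : Type := Quotient G.st

/-- The class of an index. -/
def cl (k : ℕ) : G.N := Quotient.mk G.st k

/-- Membership of the model. -/
def E : G.N → G.N → Prop :=
  Quotient.lift₂ (s₁ := G.st) (s₂ := G.st) (fun k l => ∀ᶠ m in atTop, fmem (G.v m k) (G.v m l))
    fun _ _ _ _ h h' => propext ⟨fun h1 => (h1.and (Eventually.and h h')).mono fun _ h =>
      (h.1.left h.2.1).right h.2.2, fun h1 => (h1.and (Eventually.and h h')).mono fun _ h =>
      (h.1.left h.2.1.symm).right h.2.2.symm⟩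

theorem cl_surj : Function.Surjective G.cl := Quotient.mk_surjective

theorem cl_eq {k l : ℕ} : G.cl k = G.cl l ↔ ∀ᶠ m in atTop, feq (G.v m k) (G.v m l) := Quotient.eq

theorem cl_mem {k l : ℕ} : G.E (G.cl k) (G.cl l) ↔ ∀ᶠ m in atTop, fmem (G.v m k) (G.v m l) :=
  Iff.rfl

theorem truth (φ : Fml) : ∀ f : ℕ → ℕ,
    Sat G.E φ (fun i => G.cl (f i)) ↔ ∀ᶠ m in atTop, Force φ (fun i => G.v m (f i)) := by
  induction φ with
  | mem i j => intro f; exact G.cl_mem
  | eq i j => intro f; exact G.cl_eq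
  | neg φ ih =>
    intro f
    change ¬ _ ↔ _
    rw [ih]
    constructor
    · intro h
      rcases G.dec (φ.ren f) with h1 | h1
      · exact absurd (h1.mono fun m h2 => (force_ren _ _ _).1 h2) h
      · exact h1.mono fun m h2 => (force_ren (.neg φ) _ _).1 h2
    · intro h1 h2
      obtain ⟨m, h3, h4⟩ := (h1.and h2).exists
      exact h3 1 (h4.mul 1)
  | and φ ψ ih ih' =>
    intro f
    change _ ∧ _ ↔ _
    rw [ih, ih']
    exact eventually_and.symm
  | all φ ih =>
    intro f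
    have e1 : ∀ k, (fun i => G.cl (cons k f i)) = cons (G.cl k) (fun i => G.cl (f i)) :=
      fun k => by funext i; cases i <;> rfl
    have e2 : ∀ m k, (fun i => G.v m (cons k f i)) = cons (G.v m k) (fun i => G.v m (f i)) :=
      fun m k => by funext i; cases i <;> rfl
    constructor
    · intro h
      rcases G.wit (φ.ren (liftR f)) with h1 | ⟨k, h1⟩
      · exact h1.mono fun m h2 => (force_ren (.all φ) _ _).1 h2
      · have h2 := h (G.cl k)
        rw [← e1, ih] at h2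
        obtain ⟨m, h3, h4⟩ := (h1.and h2).exists
        refine absurd ?_ (h3 1)
        rw [vm1, force_ren]
        refine force_congr (fun i _ => ?_) h4
        cases i <;> exact feq.rfl _
    · intro h x
      obtain ⟨k, rfl⟩ := G.cl_surj x
      rw [← e1, ih]
      exact h.mono fun m h1 => by rw [e2]; exact h1.inst _

theorem exists_val (w : ℕ → G.N) : ∃ f : ℕ → ℕ, w = fun i => G.cl (f i) := by
  choose f hf using fun i => G.cl_surj (w i)
  exact ⟨f, funext fun i => (hf i).symm⟩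

theorem valid {φ : Fml} (H : ∀ v : ℕ → Nm M, Force φ v) (w : ℕ → G.N) : Sat G.E φ w := by
  obtain ⟨f, rfl⟩ := G.exists_val w
  exact (G.truth φ f).2 (Eventually.of_forall fun _ => H _)

theorem set_of {ψ : Fml} (H : ∀ v : ℕ → Nm M, ∃ (ι : Type) (A : ι → Nm M), Covers ψ v A)
    (w : ℕ → G.N) : ∃ B, ∀ x, G.E x B ↔ Sat G.E ψ (cons x w) := by
  have h1 := G.valid (fun v => by
    obtain ⟨ι, A, h⟩ := H v
    exact force_set h) w
  rw [sat_ex] at h1
  obtain ⟨B, hB⟩ := h1
  refine ⟨B, fun x => ?_⟩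
  have h2 := (sat_iff _ _ _ _).1 (hB x)
  rw [sat_ren] at h2
  have : (fun i => cons x (cons B w) (liftR Nat.succ i)) = cons x w := by
    funext i; cases i <;> rfl
  rw [this] at h2
  exact h2

theorem wf : WellFounded G.E := by
  have h : ∀ x : Nm M, ∀ l, (∀ᶠ m in atTop, ∃ g : M, G.v m l = x * g) → Acc G.E (G.cl l) := by
    intro x
    induction x using Nm.ind with
    | H x ih =>
      intro l hl
      refine ⟨_, fun y hy => ?_⟩
      obtain ⟨k, rfl⟩ := G.cl_surj y
      rcases G.child k l with h1 | ⟨j, h1⟩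
      · obtain ⟨m, h2, h3⟩ := (h1.and (G.cl_mem.1 hy)).exists
        exact absurd h3 h2
      · rw [G.cl_eq.2 (h1.mono fun _ h => h.2)]
        obtain ⟨m, ⟨⟨g, h2⟩, h3, -⟩, h4⟩ := ((hl.and h1).and (G.ext (j + 1))).exists
        rw [h2, ch_res] at h3
        exact ih _ _ h3 j ((eventually_ge_atTop m).mono fun m' hm =>
          (h4 m' hm).imp fun _ h5 => h5 j (Nat.lt_succ_self j))
  refine ⟨fun x => ?_⟩
  obtain ⟨k, rfl⟩ := G.cl_surj x
  obtain ⟨m, h4⟩ := (G.ext (k + 1)).exists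
  exact h (G.v m k) k ((eventually_ge_atTop m).mono fun m' hm =>
    (h4 m' hm).imp fun _ h5 => h5 k (Nat.lt_succ_self k))

theorem extn (x y : G.N) (h : ∀ z, G.E z x ↔ G.E z y) : x = y := by
  obtain ⟨k, rfl⟩ := G.cl_surj x
  obtain ⟨l, rfl⟩ := G.cl_surj y
  have h1 := (G.truth (.all (fIff (.mem 0 1) (.mem 0 2))) (cons k fun _ => l)).1
    fun z => (sat_iff _ _ _ _).2 (h z)
  refine G.cl_eq.2 (h1.mono fun m h2 => feq_of_mem (fun g z hz => ?_) (fun g z hz => ?_))
  · have h3 := (force_iff.1 (h2 g z) 1).1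
    rw [vm1] at h3
    exact h3 hz.fmem
  · have h3 := (force_iff.1 (h2 g z) 1).2
    rw [vm1] at h3
    exact h3 hz.fmem

end Mod

/-! ### Natural numbers -/

/-- The full relation. -/
def Cl.top : Cl M := ⟨fun _ _ => True, fun _ _ _ _ => trivial⟩

/-- Names of the natural numbers. -/
def natN : ℕ → Nm M
  | 0 => ⟨PEmpty, PEmpty.elim, fun _ => Cl.top⟩
  | n + 1 => ⟨Option (natN n).ι, fun o => o.elim (natN n) (natN n).A, fun _ => Cl.top⟩

theorem natN_mul (n : ℕ) (g : M) : natN (M := M) n * g = natN n := by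
  cases n <;> rfl

theorem natN_A (n : ℕ) (z : Nm M) : (∃ j, z = (natN n).A j) ↔ ∃ m < n, z = natN m := by
  induction n with
  | zero => exact ⟨fun ⟨j, _⟩ => PEmpty.elim j, fun ⟨_, h, _⟩ => absurd h (Nat.not_lt_zero _)⟩
  | succ n ih =>
    constructor
    · rintro ⟨_ | j, h⟩
      · exact ⟨n, Nat.lt_succ_self n, h⟩
      · obtain ⟨m, h1, h2⟩ := ih.1 ⟨j, h⟩
        exact ⟨m, h1.trans (Nat.lt_succ_self n), h2⟩
    · rintro ⟨m, h1, h2⟩
      rcases Nat.lt_succ_iff_lt_or_eq.1 h1 with h | rfl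
      · obtain ⟨j, hj⟩ := ih.2 ⟨m, h, h2⟩
        exact ⟨some j, hj⟩
      · exact ⟨none, h2⟩

theorem ch_natN {n : ℕ} {h : M} {z : Nm M} : Ch (natN n) h z ↔ ∃ m < n, z = natN m := by
  constructor
  · rintro ⟨j, k, -, rfl⟩
    obtain ⟨m, h1, h2⟩ := (natN_A n _).1 ⟨j, rfl⟩
    exact ⟨m, h1, by rw [h2, natN_mul]⟩
  · intro H
    obtain ⟨j, hj⟩ := (natN_A n z).2 H
    refine ⟨j, 1, ?_, by rw [m1, hj]⟩
    cases n <;> trivial

theorem natN_inj {k m : ℕ} (h : feq (natN (M := M) k) (natN m)) : k = m := by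
  have H : ∀ {k m : ℕ}, k < m → fmem (natN (M := M) k) (natN m) := fun {k m} h => by
    have := (ch_natN (h := (1 : M)).2 ⟨k, h, rfl⟩).fmem
    rwa [m1] at this
  have H' : ∀ k, ¬ fmem (natN (M := M) k) (natN k) := fun k => by
    have := not_fmem_self (natN (M := M) k) 1
    rwa [m1] at this
  rcases lt_trichotomy k m with h1 | h1 | h1
  · exact absurd ((H h1).right h.symm) (H' _)
  · exact h1
  · exact absurd ((H h1).right h) (H' _)

/-- The name of the set of natural numbers. -/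
def omN : Nm M := ⟨ℕ, natN, fun _ => Cl.top⟩

theorem ch_omN {h : M} {z : Nm M} : Ch omN h z ↔ ∃ n, z = natN n :=
  ⟨fun ⟨n, k, _, h⟩ => ⟨n, h.trans (natN_mul n k)⟩, fun ⟨n, h⟩ => ⟨n, 1, trivial, by
    rw [m1]; exact h⟩⟩

theorem force_inf (v : ℕ → Nm M) :
    Force (fEx (.and (fEx (.and (.mem 0 1) (.all (.neg (.mem 0 1)))))
      (.all (fImp (.mem 0 1) (fEx (.and (.mem 0 2)
        (.all (fIff (.mem 0 1) (fOr (.mem 0 2) (.eq 0 2)))))))))) v := by
  have h0 : ∀ (n : ℕ) (g : M), fmem (natN n) (omN (M := M) * g) := fun n g => (ch_omN.2 ⟨n, rfl⟩).fmem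
  refine force_ex_of omN ⟨force_ex_of (natN 0) ⟨?_, fun g z h H => ?_⟩, fun g x => ?_⟩
  · have := h0 0 1
    rwa [m1] at this
  · change fmem (z * h) (natN (M := M) 0 * g * h) at H
    rw [mm] at H
    obtain ⟨_, _, h1, -⟩ := H.ex
    obtain ⟨m, h2, -⟩ := ch_natN.1 h1
    exact Nat.not_lt_zero _ h2
  · refine force_imp.2 fun h H => force_ex.2 fun a => ?_
    change fmem (x * h) (omN (M := M) * g * h) at H
    obtain ⟨l, z, h1, h2⟩ := H a
    rw [ch_res, ch_res] at h1
    obtain ⟨n, rfl⟩ := ch_omN.1 h1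
    refine ⟨l, natN (n + 1), ?_, fun b z => force_iff.2 fun c => ?_⟩
    · change fmem _ (omN (M := M) * g * h * (a * l))
      rw [mm, mm]
      exact h0 _ _
    · rw [force_or]
      change fmem (z * c) (natN (M := M) (n + 1) * b * c) ↔ ∀ d : M, ∃ e : M,
        fmem (z * c * (d * e)) (x * h * (a * l) * b * c * (d * e)) ∨
          feq (z * c * (d * e)) (x * h * (a * l) * b * c * (d * e))
      have h3 : ∀ d : M, feq (x * h * (a * l) * b * c * d) (natN n) := fun d => by
        have := ((h2.mul b).mul c).mul d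
        rwa [natN_mul, natN_mul, natN_mul] at this
      rw [natN_mul, natN_mul]
      constructor
      · intro H' d
        obtain ⟨e, w, h4, h5⟩ := H' d
        obtain ⟨m, h6, rfl⟩ := ch_natN.1 h4
        refine ⟨e, ?_⟩
        rcases Nat.lt_succ_iff_lt_or_eq.1 h6 with h7 | rfl
        · have h8 := (ch_natN (h := (1 : M)).2 ⟨m, h7, rfl⟩).fmem
          rw [m1] at h8
          exact Or.inl ((h8.left h5.symm).right (h3 _).symm)
        · exact Or.inr (h5.trans (h3 _).symm)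
      · intro H' d
        obtain ⟨e, h4 | h4⟩ := H' d
        · have h5 := h4.right (h3 _)
          rw [← m1 (natN n)] at h5
          obtain ⟨e', w, h6, h7⟩ := h5.ex
          obtain ⟨m, h8, rfl⟩ := ch_natN.1 h6
          refine ⟨e * e', _, ch_natN.2 ⟨m, h8.trans (Nat.lt_succ_self n), rfl⟩, ?_⟩
          rwa [← mul_assoc, ← mm]
        · exact ⟨e, _, ch_natN.2 ⟨n, Nat.lt_succ_self n, rfl⟩, h4.trans (h3 _)⟩

namespace Mod

variable (G : Mod M)

theorem zf : IsZF G.E where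
  ext := G.extn
  found := fun x ⟨y, hy⟩ => by
    obtain ⟨z, h1, h2⟩ := G.wf.has_min {y | G.E y x} ⟨y, hy⟩
    exact ⟨z, h1, fun w hw h3 => h2 w h3 hw⟩
  pair := fun x y => by
    obtain ⟨B, hB⟩ := G.set_of (fun v => ⟨_, _, covers_pair v 0 1⟩) (cons x fun _ => y)
    exact ⟨B, fun z => (hB z).trans (sat_or _ _ _ _)⟩
  union := fun x => by
    obtain ⟨B, hB⟩ := G.set_of (fun v => ⟨_, _, covers_union v 0⟩) (fun _ => x)
    exact ⟨B, fun z => (hB z).trans (sat_ex _ _ _)⟩
  power := fun x => by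
    obtain ⟨B, hB⟩ := G.set_of (fun v => ⟨_, _, covers_power v 0⟩) (fun _ => x)
    exact ⟨B, fun z => (hB z).trans (forall_congr' fun t => sat_imp _ _ _ _)⟩
  inf := by
    have h := G.valid force_inf fun _ => G.cl 0
    rw [sat_ex] at h
    obtain ⟨I, h1, h2⟩ := h
    rw [sat_ex] at h1
    refine ⟨I, h1, fun x hx => ?_⟩
    obtain ⟨s, h3, h4⟩ := (sat_ex _ _ _).1 ((sat_imp _ _ _ _).1 (h2 x) hx)
    exact ⟨s, h3, fun t => ((sat_iff _ _ _ _).1 (h4 t)).trans (sat_or _ _ _ _)⟩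
  sep := fun φ w A => by
    obtain ⟨B, hB⟩ := G.set_of (fun v => ⟨_, _, covers_sep (φ.ren (liftR Nat.succ)) v 0⟩)
      (cons A w)
    refine ⟨B, fun z => (hB z).trans (and_congr Iff.rfl ?_)⟩
    rw [sat_ren]
    congr! 1
    funext i; cases i <;> rfl
  repl := fun φ w A h => by
    obtain ⟨B, hB⟩ := G.set_of
      (fun v => exists_covers_repl (φ.ren (liftR (liftR Nat.succ))) v 0) (cons A w)
    have e1 : ∀ x y, Sat G.E (φ.ren (liftR (liftR Nat.succ))) (cons y (cons x (cons A w))) ↔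
        Sat G.E φ (cons y (cons x w)) := fun x y => by
      rw [sat_ren]
      congr! 1
      funext i
      match i with
      | 0 => rfl
      | 1 => rfl
      | i + 2 => rfl
    refine ⟨B, fun y => (hB y).trans ((sat_fRepl _ _ _ _ _).trans (exists_congr fun x =>
      and_congr_right fun hx => ?_))⟩
    simp only [e1]
    exact ⟨fun h3 => h3.1, fun h3 => ⟨h3, fun y' h4 => (h x hx).unique h4 h3⟩⟩

/-- The model with its enumeration. -/
def str : Str G.N := ⟨G.E, G.cl, G.cl_surj, G.zf⟩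

end Mod

end Pool.Agent.H254Z.MF
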