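import Pool.Agent.H254Z.MF.Tree
import Pool.Agent.H254Z.MF.Model

/-!
# The monoid of category preserving maps of Baire space
-/

set_option autoImplicit false

namespace Pool.Agent.H254Z.MF

open Filter Topology Set

/-- Category preserving self maps of Baire space. -/
@[ext] structure QM where
  /-- the map -/
  f : X → X
  qo : QO f

instance : Monoid QM where
  mul a b := ⟨a.f ∘ b.f, a.qo.comp b.qo⟩
  one := ⟨id, QO.id⟩
  mul_assoc _ _ _ := rfl
  one_mul _ := rfl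
  mul_one _ := rfl

theorem mul_f (a b : QM) (w : X) : (a * b).f w = a.f (b.f w) := rfl

/-- Baire space is its own square. -/
noncomputable def ee : X ≃ₜ X × X :=
  (Homeomorph.piCongrLeft (Y := fun _ => ℕ) Equiv.natSumNatEquivNat).symm.trans
    Homeomorph.sumArrowHomeomorphProdArrow

/-- first projection -/
noncomputable def p1 : QM := ⟨fun w => (ee w).1, QO.fst.comp (QO.homeo ee)⟩

/-- second projection -/
noncomputable def p2 : QM := ⟨fun w => (ee w).2, QO.snd.comp (QO.homeo ee)⟩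

/-- pairing -/
noncomputable def pr (φ : X → X × X) (h : QO φ) : QM :=
  ⟨fun w => ee.symm (φ w), (QO.homeo ee.symm).comp h⟩

theorem p1_pr (φ : X → X × X) (h : QO φ) (w : X) : (p1 * pr φ h).f w = (φ w).1 :=
  congrArg Prod.fst (ee.apply_symm_apply (φ w))

theorem p2_pr (φ : X → X × X) (h : QO φ) (w : X) : (p2 * pr φ h).f w = (φ w).2 :=
  congrArg Prod.snd (ee.apply_symm_apply (φ w))

theorem qo_pair (k : QM) : QO fun w => ((p1 * k).f w, (p2 * k).f w) :=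
  (QO.homeo ee).comp k.qo

/-- retraction onto a cylinder -/
def mC (c : C) : QM := ⟨mc c, qo_mc c⟩

/-- Equality on a residual set. -/
def ae (a b : QM) : Prop := ∀ᶠ w in residual X, a.f w = b.f w

/-- The map takes values in the cylinder on a residual set. -/
def In (a : QM) (c : C) : Prop := ∀ᶠ w in residual X, a.f w ∈ cyl c

theorem ae.rfl (a : QM) : ae a a := Eventually.of_forall fun _ => Eq.refl _

theorem ae.of_eq {a b : QM} (h : a = b) : ae a b := h ▸ ae.rfl a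

theorem ae.symm {a b : QM} (h : ae a b) : ae b a := h.mono fun _ => Eq.symm

theorem ae.trans {a b c : QM} (h : ae a b) (h' : ae b c) : ae a c :=
  (h.and h').mono fun _ h => h.1.trans h.2

theorem ae.mul {a b : QM} (h : ae a b) (l : QM) : ae (a * l) (b * l) := l.qo.2 h

theorem ae.mul' {a b c d : QM} (h : ae (a * b) (c * d)) (l : QM) :
    ae (a * (b * l)) (c * (d * l)) := l.qo.2 h

theorem ae.left {a b : QM} (h : ae a b) (c : QM) : ae (c * a) (c * b) :=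
  h.mono fun _ h => congrArg c.f h

theorem ae.ext {k k' : QM} (h1 : ae (p1 * k) (p1 * k')) (h2 : ae (p2 * k) (p2 * k')) : ae k k' :=
  (h1.and h2).mono fun _ h => ee.injective (Prod.ext h.1 h.2)

theorem In.mul {a : QM} {c : C} (h : In a c) (l : QM) : In (a * l) c := l.qo.2 h

theorem In.mul' {a b : QM} {c : C} (h : In (a * b) c) (l : QM) : In (a * (b * l)) c := l.qo.2 h

theorem In.ae {a b : QM} {c : C} (h : In a c) (h' : ae a b) : In b c :=
  (h.and h').mono fun _ h => h.2 ▸ h.1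

theorem In.mono {a : QM} {c d : C} (h : In a c) (h' : cyl c ⊆ cyl d) : In a d :=
  Eventually.mono h fun _ h => h' h

theorem In.top (a : QM) : In a (0, 0) := Eventually.of_forall fun _ => by rw [cyl_zero]; trivial

theorem res_ex {S : X → Prop} (h : ∀ᶠ w in residual X, S w) : ∃ w, S w :=
  (dense_of_mem_residual h).nonempty

theorem In.meet {a : QM} {c d : C} (h : In a c) (h' : In a d) : (cyl c ∩ cyl d).Nonempty := by
  obtain ⟨w, hw⟩ := res_ex (h.and h')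
  exact ⟨_, hw⟩

theorem in_mC (c : C) (a : QM) : In (mC c * a) c := Eventually.of_forall fun _ => mc_mem _ _

theorem In.mC {a : QM} {c : C} (h : In a c) : MF.ae (mC c * a) a :=
  Eventually.mono h fun _ h => mc_eq h

theorem exists_into {S : X → Prop} (hS : ∀ᶠ w in residual X, S w) :
    ∃ l : QM, ∀ w, S (l.f w) := by
  classical
  obtain ⟨w₀, h⟩ := res_ex hS
  refine ⟨⟨fun w => if S w then w else w₀, QO.id.congr (hS.mono fun w hw => (if_pos hw).symm)⟩,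
    fun w => ?_⟩
  simp only
  split_ifs with h1
  · exact h1
  · exact h

theorem ae.eq {a b : QM} (h : ae a b) : ∃ l, a * l = b * l := by
  obtain ⟨l, hl⟩ := exists_into h
  exact ⟨l, QM.ext (funext hl)⟩

theorem feq_ae (x : Nm QM) {a b : QM} (h : ae a b) : feq (x * a) (x * b) := by
  refine feq_of_dn fun k => ?_
  obtain ⟨l, hl⟩ := (h.mul k).eq
  exact ⟨l, feq.of_eq (by rw [mm, mm, ← mul_assoc, ← mul_assoc, hl])⟩

theorem loc_mC {Z : Type} [TopologicalSpace Z] {f : X → Z} {G : Set X} (hG : G ∈ residual X)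
    (hf : ContinuousOn f G) {w : X} (hw : w ∈ G) {V : Set Z} (hV : IsOpen V) (h : f w ∈ V)
    {u : C} (hu : w ∈ cyl u) :
    ∃ u', cyl u' ⊆ cyl u ∧ ∀ᶠ w' in residual X, f (mc u' w') ∈ V := by
  obtain ⟨U, h1, h2, h3⟩ := loc hf hw hV h
  obtain ⟨u', -, -, h4⟩ := ex_cyl (h1.inter (isOpen_cyl u)) ⟨h2, hu⟩ 0
  exact ⟨u', fun z hz => (h4 hz).2, Eventually.mono ((qo_mc u').2 hG) fun w' h5 =>
    h3 _ (h4 (mc_mem _ _)).1 h5⟩

theorem red (a : QM) (u : C) {q : C} (h : In a q) : ∃ c₀, cyl c₀ ⊆ cyl q ∧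
    ∀ c, (cyl c ∩ cyl c₀).Nonempty → ∃ u', cyl u' ⊆ cyl u ∧ In (a * mC u') c := by
  obtain ⟨G, hG, hc⟩ := a.qo.1
  have hG' := inter_mem hG h
  obtain ⟨z, hz⟩ := a.qo.int_ne hG' (isOpen_cyl u) (cyl_ne u)
  obtain ⟨_, h1, w, h2, rfl⟩ := mem_closure_iff.1 (interior_subset hz) _ isOpen_interior hz
  obtain ⟨c₀, -, -, h3⟩ := ex_cyl (isOpen_interior.inter (isOpen_cyl q)) ⟨h1, h2.2.2⟩ 0
  refine ⟨c₀, fun y hy => (h3 hy).2, ?_⟩
  rintro c ⟨y, h4, h5⟩
  obtain ⟨_, h6, w', h7, rfl⟩ := mem_closure_iff.1 (interior_subset (h3 h5).1) _ (isOpen_cyl c) h4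
  exact loc_mC hG hc h7.2.1 (isOpen_cyl c) h6 h7.1

theorem lift' (g : QM) : ∃ (p : C) (κ : QM), ∀ k : QM, In (p1 * k) p → ae (g * κ * k) (p1 * k) := by
  obtain ⟨W, h1, ⟨z, h2⟩, κ, h3, h4⟩ := lift g.qo
  obtain ⟨p, -, -, h5⟩ := ex_cyl h1 h2 0
  refine ⟨p, ⟨κ ∘ ee, h3.comp (QO.homeo ee)⟩, fun k hk => ?_⟩
  exact (hk.and ((qo_pair k).2 h4)).mono fun w hw => hw.2 (h5 hw.1)

theorem amalg {Y : Type} [TopologicalSpace Y] [BaireSpace Y] [T3Space Y] [BaireSpace (Y × X)]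
    {g : X → Y} (hg : QO g) {O : Set Y} (hO : IsOpen O) (hO' : ∀ᶠ w in residual X, g w ∈ O) :
    ∃ W : Set Y, IsOpen W ∧ W.Nonempty ∧ W ⊆ O ∧ ∀ r : X → Y, QO r →
      (∀ᶠ w in residual X, r w ∈ W) →
        ∃ l : QM, ∀ᶠ w in residual X, g (l.f w) = r (p1.f w) := by
  obtain ⟨W, h1, ⟨z, h2⟩, κ, h3, h4⟩ := lift hg
  refine ⟨W ∩ O, h1.inter hO, ?_, inter_subset_right, fun r hr h5 => ?_⟩
  · obtain ⟨p, h5, h6, h7⟩ := ex_res (inter_mem h4 (h3.2 hO')) (h1.prod isOpen_univ)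
      ⟨(z, fun _ => 0), h2, trivial⟩
    exact ⟨p.1, h5.1, h6 h5.1 ▸ h7⟩
  · have h6 : QO fun w => (r (ee w).1, (ee w).2) := (hr.prod (W := X)).comp (QO.homeo ee)
    have h7 : ∀ᶠ w in residual X, r (ee w).1 ∈ W → g (κ (r (ee w).1, (ee w).2)) = r (ee w).1 :=
      h6.2 h4
    have h8 : ∀ᶠ w in residual X, r (ee w).1 ∈ W ∩ O := p1.qo.2 h5
    exact ⟨⟨_, h3.comp h6⟩, (h7.and h8).mono fun w hw => hw.1 hw.2.1⟩

theorem exists_prod (a : QM) : ∃ φ : QM, p1 * φ = a * p1 ∧ p2 * φ = p2 :=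
  ⟨pr _ ((a.qo.prod (W := X)).comp (QO.homeo ee)), QM.ext (funext (p1_pr _ _)),
    QM.ext (funext (p2_pr _ _))⟩

theorem qo_mc2 {Y : Type} [TopologicalSpace Y] (s : C) :
    QO fun p : Y × X => (p.1, mc s p.2) :=
  QO.of_open (continuous_id.prodMap (continuous_mc s)) (IsOpenMap.id.prodMap (isOpenMap_mc s))

theorem exists_prod' (s : C) : ∃ σ : QM, p1 * σ = p1 ∧ p2 * σ = mC s * p2 :=
  ⟨pr _ ((qo_mc2 s).comp (QO.homeo ee)), QM.ext (funext (p1_pr _ _)),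
    QM.ext (funext (p2_pr _ _))⟩

/-- Mutually generic over the common first coordinate. -/
def MG (k k' : QM) : Prop :=
  ae (p1 * k) (p1 * k') ∧ QO fun w => ((p1 * k).f w, (p2 * k).f w, (p2 * k').f w)

theorem MG.mul {k k' : QM} (h : MG k k') (l : QM) : MG (k * l) (k' * l) :=
  ⟨h.1.mul' l, h.2.comp l.qo⟩

theorem MG.symm {k k' : QM} (h : MG k k') : MG k' k :=
  ⟨h.1.symm, ((QO.homeo ((Homeomorph.refl X).prodCongr (Homeomorph.prodComm X X))).comp h.2).congr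
    (h.1.mono fun _ hw => Prod.ext hw rfl)⟩

theorem MG.amalg {k₀ k₀' : QM} (h : MG k₀ k₀') {q : C} (hq : In (p1 * k₀) q) :
    ∃ p s s', cyl p ⊆ cyl q ∧ ∀ k k', MG k k' → In (p1 * k) p → In (p2 * k) s →
      In (p2 * k') s' → ∃ l, ae (k₀ * l) (k * p1) ∧ ae (k₀' * l) (k' * p1) := by
  obtain ⟨W, h1, ⟨⟨a, b, b'⟩, h2⟩, h3, h4⟩ := MF.amalg h.2
    ((isOpen_cyl q).preimage continuous_fst) hq
  obtain ⟨U, V, hU, hV, ha, hb, h5⟩ := isOpen_prod_iff.1 h1 a (b, b') h2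
  obtain ⟨V₁, V₂, hV₁, hV₂, hb₁, hb₂, h6⟩ := isOpen_prod_iff.1 hV b b' hb
  obtain ⟨p, -, -, h7⟩ := ex_cyl hU ha 0
  obtain ⟨s, -, -, h8⟩ := ex_cyl hV₁ hb₁ 0
  obtain ⟨s', -, -, h9⟩ := ex_cyl hV₂ hb₂ 0
  refine ⟨p, s, s', fun z hz => h3 (h5 (show (z, b, b') ∈ U ×ˢ V from ⟨h7 hz, hb⟩)),
    fun k k' hk i1 i2 i3 => ?_⟩
  obtain ⟨l, hl⟩ := h4 _ hk.2 ((i1.and (i2.and i3)).mono fun w hw =>
    h5 ⟨h7 hw.1, h6 ⟨h8 hw.2.1, h9 hw.2.2⟩⟩)
  have e1 : ae (p1 * (k₀ * l)) (p1 * (k * p1)) := hl.mono fun w hw =>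
    congrArg (fun z : X × X × X => z.1) hw
  exact ⟨l, ae.ext e1 (hl.mono fun w hw => congrArg (fun z : X × X × X => z.2.1) hw),
    ae.ext ((h.1.mul' l).symm.trans (e1.trans (hk.1.mul' p1)))
      (hl.mono fun w hw => congrArg (fun z : X × X × X => z.2.2) hw)⟩

theorem third (a : QM) (s : C) : ∃ k'', In (p2 * k'') s ∧
    ∀ k, ae (p1 * k) a → MG (k * p1) k'' := by
  have h1 : QO fun w => (a.f (ee w).1, mc s (ee w).2) :=
    (qo_mc2 s).comp ((a.qo.prod (W := X)).comp (QO.homeo ee))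
  refine ⟨pr _ h1, Eventually.of_forall fun w => by rw [p2_pr]; exact mc_mem _ _,
    fun k hk => ⟨(hk.mul p1).trans (Eventually.of_forall fun w => (p1_pr _ h1 w).symm), ?_⟩⟩
  refine (((QO.homeo (Homeomorph.prodAssoc X X X)).comp ((qo_mc2 s).comp
    (((qo_pair k).prod (W := X)).comp (QO.homeo ee)))).congr (Eventually.of_forall fun w => ?_))
  exact Prod.ext rfl (Prod.ext rfl (p2_pr _ h1 w).symm)

/-- `σ` is the branch coded by `y` of the tree given by the second coordinate of `φ`. -/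
def Lk (φ y σ : QM) : Prop := ae (p1 * σ) (p1 * φ) ∧
  ∀ᶠ w in residual X, (p2 * σ).f w = br ((p2 * φ).f w) (bin (y.f w))

theorem Lk.mul {φ y σ : QM} (h : Lk φ y σ) (l : QM) : Lk (φ * l) (y * l) (σ * l) :=
  ⟨h.1.mul' l, l.qo.2 h.2⟩

theorem exists_lk (φ y : QM) : ∃ σ, Lk φ y σ := by
  have h1 : AC fun w => bin (y.f w) := AC.cont continuous_bin y.qo.1
  have h2 : AC fun w i => !bin (y.f w) i :=
    AC.cont (f := fun (z : ℕ → Bool) i => !z i) (by fun_prop) h1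
  have h3 := qo_tree (qo_pair φ) h1 h2 (L := 0) (Eventually.of_forall fun w => by simp)
  have h4 : QO fun z : X × X × X => (z.1, z.2.1) :=
    QO.of_open (continuous_id.prodMap continuous_fst) (IsOpenMap.id.prodMap isOpenMap_fst)
  exact ⟨pr _ (h4.comp h3), Eventually.of_forall (p1_pr _ _), Eventually.of_forall (p2_pr _ _)⟩

theorem exists_diff {y y' : QM} (h : ¬ ae y y') :
    ∃ L u, ∀ᶠ w in residual X, bin ((y * mC u).f w) L ≠ bin ((y' * mC u).f w) L := by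
  obtain ⟨G, hG, hc⟩ := y.qo.1.pair y'.qo.1
  obtain ⟨w, hw, h1⟩ : ∃ w ∈ G, y.f w ≠ y'.f w := by
    by_contra h1
    push Not at h1
    exact h (mem_of_superset hG h1)
  obtain ⟨L, hL⟩ := Function.ne_iff.1 (bin_inj.ne h1)
  have h2 : Continuous fun p : X × X => (bin p.1 L, bin p.2 L) :=
    ((continuous_apply L).comp (continuous_bin.comp continuous_fst)).prodMk
      ((continuous_apply L).comp (continuous_bin.comp continuous_snd))
  obtain ⟨u, -, h3⟩ := loc_mC hG hc hw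
    ((isOpen_discrete {r : Bool × Bool | r.1 ≠ r.2}).preimage h2) hL (u := (0, 0))
    (by rw [cyl_zero]; trivial)
  exact ⟨L, u, h3⟩

theorem Lk.mg {φ y y' σ σ' : QM} (h : Lk φ y σ) (h' : Lk φ y' σ') (hy : ¬ ae y y') :
    ∃ l, MG (σ * l) (σ' * l) := by
  obtain ⟨L, u, h1⟩ := exists_diff hy
  have h2 := h.mul (mC u)
  have h3 := h'.mul (mC u)
  refine ⟨mC u, h2.1.trans h3.1.symm, (qo_tree (qo_pair (φ * mC u))
    (AC.cont continuous_bin (y * mC u).qo.1) (AC.cont continuous_bin (y' * mC u).qo.1) h1).congr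
    ((h2.1.and (h2.2.and h3.2)).mono fun w hw => ?_)⟩
  exact Prod.ext hw.1.symm (Prod.ext hw.2.1.symm hw.2.2.symm)

end Pool.Agent.H254Z.MF
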