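import Pool.Agent.H164Z.BsptZF

/-!
# Forcing over a monoid: names and atomic formulas

An element `h` of the monoid is read as a passage from the present stage to a later stage.
-/

set_option autoImplicit false

namespace Pool.Agent.H254Z.MF

open Pool.Agent.H164Z.Bspt

/-- Relations closed under right multiplication. -/
structure Cl (M : Type) [Monoid M] where
  /-- the relation -/
  r : M → M → Prop
  cl : ∀ h k l, r h k → r (h * l) (k * l)

/-- Names. -/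
inductive Nm (M : Type) [Monoid M] : Type 1
  | mk (ι : Type) (A : ι → Nm M) (c : ι → Cl M) : Nm M

variable {M : Type} [Monoid M]

namespace Nm

/-- index type -/
def ι : Nm M → Type
  | ⟨ι, _, _⟩ => ι

/-- children -/
def A : (x : Nm M) → x.ι → Nm M
  | ⟨_, A, _⟩ => A

/-- conditions -/
def c : (x : Nm M) → x.ι → Cl M
  | ⟨_, _, c⟩ => c

/-- restriction -/
def res : Nm M → M → Nm M
  | ⟨ι, A, c⟩, g => ⟨ι, A, fun i => ⟨fun h k => (c i).r (g * h) k, fun h k l H => by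
      rw [← mul_assoc]; exact (c i).cl _ _ l H⟩⟩

end Nm

instance : HMul (Nm M) M (Nm M) := ⟨Nm.res⟩

instance : HMul (ℕ → Nm M) M (ℕ → Nm M) := ⟨fun v h i => v i * h⟩

theorem vm_apply (v : ℕ → Nm M) (h : M) (i : ℕ) : (v * h) i = v i * h := rfl

theorem mm (x : Nm M) (a b : M) : x * a * b = x * (a * b) := by
  obtain ⟨ι, A, c⟩ := x
  change Nm.mk _ _ _ = Nm.mk _ _ _
  congr 1
  funext i
  congr 1
  funext h k
  change (c i).r (a * (b * h)) k = (c i).r (a * b * h) k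
  rw [mul_assoc]

theorem m1 (x : Nm M) : x * (1 : M) = x := by
  obtain ⟨ι, A, c⟩ := x
  change Nm.mk _ _ _ = Nm.mk _ _ _
  congr 1
  funext i
  congr 1
  funext h k
  rw [one_mul]

theorem vmm (v : ℕ → Nm M) (a b : M) : v * a * b = v * (a * b) := funext fun i => mm (v i) a b

theorem vm1 (v : ℕ → Nm M) : v * (1 : M) = v := funext fun i => m1 (v i)

theorem cons_m (x : Nm M) (v : ℕ → Nm M) (h : M) : cons x v * h = cons (x * h) (v * h) := by
  funext i; cases i <;> rfl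

/-- `z` is a child of `y` at the stage `h`. -/
def Ch (y : Nm M) (h : M) (z : Nm M) : Prop := ∃ j k, (y.c j).r h k ∧ z = y.A j * k

theorem Ch.mul {y z : Nm M} {h : M} (H : Ch y h z) (l : M) : Ch y (h * l) (z * l) := by
  obtain ⟨j, k, h1, rfl⟩ := H
  exact ⟨j, k * l, (y.c j).cl _ _ l h1, mm _ _ _⟩

theorem ch_res (y z : Nm M) (g h : M) : Ch (y * g) h z ↔ Ch y (g * h) z := by
  obtain ⟨ι, A, c⟩ := y
  rfl

theorem ch_mk {ι : Type} {A : ι → Nm M} {c : ι → Cl M} {h : M} {z : Nm M} :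
    Ch ⟨ι, A, c⟩ h z ↔ ∃ j k, (c j).r h k ∧ z = A j * k := Iff.rfl

theorem Nm.ind {C : Nm M → Prop} (H : ∀ x, (∀ h z, Ch x h z → C z) → C x) (x : Nm M) : C x := by
  have : ∀ (x : Nm M) (g : M), C (x * g) := by
    intro x
    induction x with
    | mk ι A c ih =>
      intro g
      refine H _ fun h z hz => ?_
      obtain ⟨j, k, -, rfl⟩ := (ch_res _ _ _ _).1 hz
      exact ih j k
  have h1 := this x 1
  rwa [m1] at h1

/-- Forcing of equality of restrictions. -/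
def eq' : Nm M → Nm M → M → M → Prop
  | ⟨_, A, c⟩, ⟨_, B, d⟩, r, s =>
    (∀ i h k, (c i).r (r * h) k → ∃ l j k', (d j).r (s * (h * l)) k' ∧ eq' (A i) (B j) (k * l) k') ∧
    (∀ j h k, (d j).r (s * h) k → ∃ l i k', (c i).r (r * (h * l)) k' ∧ eq' (A i) (B j) k' (k * l))

/-- Forcing of equality. -/
def feq (x y : Nm M) : Prop := eq' x y 1 1

theorem eq'_iff (x y : Nm M) (r s : M) : eq' x y r s ↔ feq (x * r) (y * s) := by
  obtain ⟨ι, A, c⟩ := x
  obtain ⟨κ, B, d⟩ := y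
  change _ ↔ (∀ i h k, (c i).r (r * (1 * h)) k → ∃ l j k', (d j).r (s * (1 * (h * l))) k' ∧
      eq' (A i) (B j) (k * l) k') ∧
    (∀ j h k, (d j).r (s * (1 * h)) k → ∃ l i k', (c i).r (r * (1 * (h * l))) k' ∧
      eq' (A i) (B j) k' (k * l))
  simp only [one_mul]
  rfl

theorem feq_def (x y : Nm M) : feq x y ↔
    (∀ h z, Ch x h z → ∃ l z', Ch y (h * l) z' ∧ feq (z * l) z') ∧
    (∀ h z, Ch y h z → ∃ l z', Ch x (h * l) z' ∧ feq z' (z * l)) := by
  obtain ⟨ι, A, c⟩ := x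
  obtain ⟨κ, B, d⟩ := y
  change ((∀ i h k, (c i).r (1 * h) k → ∃ l j k', (d j).r (1 * (h * l)) k' ∧
      eq' (A i) (B j) (k * l) k') ∧
    (∀ j h k, (d j).r (1 * h) k → ∃ l i k', (c i).r (1 * (h * l)) k' ∧
      eq' (A i) (B j) k' (k * l))) ↔ _
  simp only [one_mul, eq'_iff, ch_mk]
  refine and_congr ⟨?_, fun H i h k h1 => ?_⟩ ⟨?_, fun H i h k h1 => ?_⟩
  · rintro H h z ⟨i, k, h1, rfl⟩
    obtain ⟨l, j, k', h2, h3⟩ := H i h k h1
    exact ⟨l, _, ⟨j, k', h2, rfl⟩, by rwa [mm]⟩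
  · obtain ⟨l, _, ⟨j, k', h2, rfl⟩, h3⟩ := H h _ ⟨i, k, h1, rfl⟩
    exact ⟨l, j, k', h2, by rwa [mm] at h3⟩
  · rintro H h z ⟨i, k, h1, rfl⟩
    obtain ⟨l, j, k', h2, h3⟩ := H i h k h1
    exact ⟨l, _, ⟨j, k', h2, rfl⟩, by rwa [mm]⟩
  · obtain ⟨l, _, ⟨j, k', h2, rfl⟩, h3⟩ := H h _ ⟨i, k, h1, rfl⟩
    exact ⟨l, j, k', h2, by rwa [mm] at h3⟩

theorem feq.mul {x y : Nm M} (H : feq x y) (g : M) : feq (x * g) (y * g) := by
  rw [feq_def] at H ⊢
  simp only [ch_res, ← mul_assoc]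
  exact ⟨fun h z => H.1 (g * h) z, fun h z => H.2 (g * h) z⟩

theorem feq.refl (x : Nm M) : ∀ g : M, feq (x * g) (x * g) := by
  induction x using Nm.ind with
  | H x ih =>
    intro g
    rw [feq_def]
    simp only [ch_res]
    exact ⟨fun h z hz => ⟨1, z * (1 : M), by simpa only [mul_one, m1] using hz, ih _ z hz 1⟩,
      fun h z hz => ⟨1, z * (1 : M), by simpa only [mul_one, m1] using hz, ih _ z hz 1⟩⟩

theorem feq.rfl (x : Nm M) : feq x x := by
  have := feq.refl x 1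
  rwa [m1] at this

theorem feq.of_eq {x y : Nm M} (h : x = y) : feq x y := h ▸ feq.rfl x

theorem feq.symm' (x : Nm M) : ∀ (g : M) {y : Nm M}, feq (x * g) y → feq y (x * g) := by
  induction x using Nm.ind with
  | H x ih =>
    intro g y H
    rw [feq_def] at H ⊢
    simp only [ch_res] at H ⊢
    refine ⟨fun h z hz => ?_, fun h z hz => ?_⟩
    · obtain ⟨l, z', h1, h2⟩ := H.2 h z hz
      refine ⟨l, z', h1, ?_⟩
      have := ih _ z' h1 1 (y := z * l) (by rwa [m1])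
      rwa [m1] at this
    · obtain ⟨l, z', h1, h2⟩ := H.1 h z hz
      exact ⟨l, z', h1, ih _ z hz l h2⟩

theorem feq.symm {x y : Nm M} (H : feq x y) : feq y x := by
  have := feq.symm' x 1 (y := y) (by rwa [m1])
  rwa [m1] at this

theorem feq.trans' (x : Nm M) :
    ∀ (g : M) {y z : Nm M}, feq (x * g) y → feq y z → feq (x * g) z := by
  induction x using Nm.ind with
  | H x ih =>
    intro g y z H H'
    rw [feq_def] at H H' ⊢
    simp only [ch_res] at H ⊢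
    refine ⟨fun h w hw => ?_, fun h w hw => ?_⟩
    · obtain ⟨l, w', h1, h2⟩ := H.1 h w hw
      obtain ⟨l', w'', h3, h4⟩ := H'.1 _ w' h1
      refine ⟨l * l', w'', by rwa [← mul_assoc], ih _ w hw _ ?_ h4⟩
      rw [← mm]
      exact h2.mul l'
    · obtain ⟨l, w', h1, h2⟩ := H'.2 h w hw
      obtain ⟨l', w'', h3, h4⟩ := H.2 _ w' h1
      refine ⟨l * l', w'', by rwa [← mul_assoc h], ?_⟩
      have := ih _ w'' h3 1 (show feq (w'' * (1 : M)) (w' * l') by rwa [m1])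
        (show feq (w' * l') (w * (l * l')) by rw [← mm]; exact h2.mul l')
      rwa [m1] at this

theorem feq.trans {x y z : Nm M} (H : feq x y) (H' : feq y z) : feq x z := by
  have := feq.trans' x 1 (y := y) (z := z) (by rwa [m1]) H'
  rwa [m1] at this

theorem feq_of_dn {x y : Nm M} (H : ∀ h : M, ∃ l : M, feq (x * (h * l)) (y * (h * l))) :
    feq x y := by
  rw [feq_def]
  refine ⟨fun h z hz => ?_, fun h z hz => ?_⟩
  · obtain ⟨l, h1⟩ := H h
    obtain ⟨l', z', h2, h3⟩ := ((feq_def _ _).1 h1).1 1 (z * l)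
      ((ch_res _ _ _ _).2 (by rw [mul_one]; exact hz.mul l))
    rw [ch_res, one_mul, mul_assoc] at h2
    exact ⟨l * l', z', h2, by rwa [← mm]⟩
  · obtain ⟨l, h1⟩ := H h
    obtain ⟨l', z', h2, h3⟩ := ((feq_def _ _).1 h1).2 1 (z * l)
      ((ch_res _ _ _ _).2 (by rw [mul_one]; exact hz.mul l))
    rw [ch_res, one_mul, mul_assoc] at h2
    exact ⟨l * l', z', h2, by rwa [← mm]⟩

/-- Forcing of membership. -/
def fmem (x y : Nm M) : Prop := ∀ h : M, ∃ l z, Ch y (h * l) z ∧ feq (x * (h * l)) z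

theorem fmem.mul {x y : Nm M} (H : fmem x y) (g : M) : fmem (x * g) (y * g) := fun h => by
  obtain ⟨l, z, h1, h2⟩ := H (g * h)
  exact ⟨l, z, by rwa [ch_res, ← mul_assoc], by rwa [mm, ← mul_assoc]⟩

theorem fmem_of_dn {x y : Nm M} (H : ∀ h : M, ∃ l : M, fmem (x * (h * l)) (y * (h * l))) :
    fmem x y := fun h => by
  obtain ⟨l, h1⟩ := H h
  obtain ⟨l', z, h2, h3⟩ := h1 1
  rw [ch_res, one_mul, mul_assoc] at h2
  rw [one_mul, mm, mul_assoc] at h3
  exact ⟨l * l', z, h2, h3⟩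

theorem Ch.fmem {y z : Nm M} {g : M} (H : Ch y g z) : fmem z (y * g) := fun h =>
  ⟨1, z * h, by rw [ch_res, mul_one]; exact H.mul h, by rw [mul_one]; exact feq.refl _ _⟩

theorem fmem.ex {x y : Nm M} {g : M} (H : fmem x (y * g)) :
    ∃ l z, Ch y (g * l) z ∧ feq (x * l) z := by
  obtain ⟨l, z, h1, h2⟩ := H 1
  rw [ch_res, one_mul] at h1
  rw [one_mul] at h2
  exact ⟨l, z, h1, h2⟩

theorem fmem.left {x x' y : Nm M} (H : fmem x y) (H' : feq x x') : fmem x' y := fun h => by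
  obtain ⟨l, z, h1, h2⟩ := H h
  exact ⟨l, z, h1, (H'.mul _).symm.trans h2⟩

theorem fmem.right {x y y' : Nm M} (H : fmem x y) (H' : feq y y') : fmem x y' := fun h => by
  obtain ⟨l, z, h1, h2⟩ := H h
  obtain ⟨l', z', h3, h4⟩ := ((feq_def _ _).1 H').1 _ z h1
  refine ⟨l * l', z', by rwa [← mul_assoc], feq.trans ?_ h4⟩
  rw [← mul_assoc, ← mm]
  exact h2.mul l'

theorem feq_of_mem {x y : Nm M} (h1 : ∀ h z, Ch x h z → fmem z (y * h))
    (h2 : ∀ h z, Ch y h z → fmem z (x * h)) : feq x y := by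
  rw [feq_def]
  refine ⟨fun h z hz => (h1 h z hz).ex, fun h z hz => ?_⟩
  obtain ⟨l, z', h3, h4⟩ := (h2 h z hz).ex
  exact ⟨l, z', h3, h4.symm⟩

theorem not_fmem_self (x : Nm M) : ∀ g : M, ¬ fmem (x * g) (x * g) := by
  induction x using Nm.ind with
  | H x ih =>
    intro g H
    obtain ⟨l, z, h1, h2⟩ := H.ex
    refine ih _ z h1 1 ?_
    rw [m1]
    exact ((H.mul l).left h2).right h2

end Pool.Agent.H254Z.MF
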