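import Mathlib

/-!
# Category preserving maps
-/

set_option autoImplicit false

namespace Pool.Agent.H254Z.MF

open Filter Topology Set

section general

variable {Y Z W : Type} [TopologicalSpace Y] [TopologicalSpace Z] [TopologicalSpace W]

/-- Continuous on a residual set. -/
def AC (f : Y → Z) : Prop := ∃ G ∈ residual Y, ContinuousOn f G

/-- Continuous on a residual set, and preimages of residual sets are residual. -/
def QO (f : Y → Z) : Prop := AC f ∧ Tendsto f (residual Y) (residual Z)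

theorem AC.comp {f : Z → W} {g : Y → Z} (hf : AC f) (hg : QO g) : AC (f ∘ g) := by
  obtain ⟨G, h1, h2⟩ := hf
  obtain ⟨⟨H, h3, h4⟩, h5⟩ := hg
  exact ⟨H ∩ g ⁻¹' G, inter_mem h3 (h5 h1), h2.comp (h4.mono inter_subset_left) fun _ h => h.2⟩

theorem AC.cont {f : Z → W} {g : Y → Z} (hf : Continuous f) (hg : AC g) : AC (f ∘ g) := by
  obtain ⟨H, h3, h4⟩ := hg
  exact ⟨H, h3, hf.comp_continuousOn h4⟩

theorem AC.pair {f : Y → Z} {g : Y → W} (hf : AC f) (hg : AC g) : AC (fun w => (f w, g w)) := by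
  obtain ⟨G, h1, h2⟩ := hf
  obtain ⟨H, h3, h4⟩ := hg
  exact ⟨G ∩ H, inter_mem h1 h3, (h2.mono inter_subset_left).prodMk (h4.mono inter_subset_right)⟩

theorem AC.congr {f g : Y → Z} (hf : AC f) (h : f =ᶠ[residual Y] g) : AC g := by
  obtain ⟨G, h1, h2⟩ := hf
  exact ⟨G ∩ {w | f w = g w}, inter_mem h1 h,
    (h2.mono inter_subset_left).congr fun _ hw => hw.2.symm⟩

theorem QO.comp {f : Z → W} {g : Y → Z} (hf : QO f) (hg : QO g) : QO (f ∘ g) :=
  ⟨hf.1.comp hg, hf.2.comp hg.2⟩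

theorem QO.congr {f g : Y → Z} (hf : QO f) (h : f =ᶠ[residual Y] g) : QO g :=
  ⟨hf.1.congr h, hf.2.congr' h⟩

theorem QO.of_open {f : Y → Z} (h : Continuous f) (h' : IsOpenMap f) : QO f :=
  ⟨⟨univ, univ_mem, h.continuousOn⟩, tendsto_residual_of_isOpenMap h h'⟩

theorem QO.id : QO (id : Y → Y) := QO.of_open continuous_id IsOpenMap.id

theorem QO.fst : QO (Prod.fst : Y × Z → Y) := QO.of_open continuous_fst isOpenMap_fst

theorem QO.snd : QO (Prod.snd : Y × Z → Z) := QO.of_open continuous_snd isOpenMap_snd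

theorem QO.homeo (e : Y ≃ₜ Z) : QO e := QO.of_open e.continuous e.isOpenMap

theorem QO.mk' {f : Y → Z} (h : AC f)
    (h' : ∀ D, IsOpen D → Dense D → f ⁻¹' D ∈ residual Y) : QO f :=
  ⟨h, le_countableGenerate_iff_of_countableInterFilter.mpr fun D hD => h' D hD.1 hD.2⟩

theorem QO.crit {f : Y → Z} {G : Set Y} (hG : G ∈ residual Y) (hf : ContinuousOn f G)
    (h : ∀ D, IsOpen D → Dense D → ∀ U, IsOpen U → U.Nonempty → ∃ w ∈ U, w ∈ G ∧ f w ∈ D) :
    QO f := by
  refine QO.mk' ⟨G, hG, hf⟩ fun D h1 h2 => ?_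
  obtain ⟨O, h3, h4⟩ := continuousOn_iff'.1 hf D h1
  refine mem_of_superset (inter_mem (residual_of_dense_open h3 ?_) hG) ?_
  · refine dense_iff_inter_open.2 fun U h5 h6 => ?_
    obtain ⟨w, h7, h8, h9⟩ := h D h1 h2 U h5 h6
    have : w ∈ O ∩ G := h4 ▸ (⟨h9, h8⟩ : w ∈ f ⁻¹' D ∩ G)
    exact ⟨w, h7, this.1⟩
  · rw [← h4]; exact inter_subset_left

theorem ex_res [BaireSpace Y] {S U : Set Y} (hS : S ∈ residual Y) (hU : IsOpen U)
    (h : U.Nonempty) : ∃ w ∈ U, w ∈ S :=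
  dense_iff_inter_open.1 (dense_of_mem_residual hS) U hU h

theorem QO.prod [BaireSpace Y] {f : Y → Z} (hf : QO f) :
    QO (fun p : Y × W => (f p.1, p.2)) := by
  obtain ⟨⟨G, h1, h2⟩, h3⟩ := hf
  refine QO.crit (G := Prod.fst ⁻¹' G) (QO.fst.2 h1)
    ((h2.comp continuousOn_fst fun _ h => h).prodMk continuousOn_snd) ?_
  rintro D h4 h5 O h6 ⟨⟨a, b⟩, h7⟩
  obtain ⟨U, V, hU, hV, ha, hb, h8⟩ := isOpen_prod_iff.1 h6 a b h7
  have h9 : IsOpen (Prod.fst '' (D ∩ univ ×ˢ V)) :=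
    isOpenMap_fst _ (h4.inter (isOpen_univ.prod hV))
  have h10 : Dense (Prod.fst '' (D ∩ univ ×ˢ V)) := by
    refine dense_iff_inter_open.2 fun T h11 ⟨c, hc⟩ => ?_
    obtain ⟨p, h12, h13⟩ := dense_iff_inter_open.1 h5 (T ×ˢ V) (h11.prod hV) ⟨(c, b), hc, hb⟩
    exact ⟨p.1, h12.1, p, ⟨h13, trivial, h12.2⟩, rfl⟩
  obtain ⟨w, h11, h12, p, h13, h14⟩ :=
    ex_res (inter_mem h1 (h3 (residual_of_dense_open h9 h10))) hU ⟨a, ha⟩
  refine ⟨(w, p.2), h8 ⟨h11, h13.2.2⟩, h12, ?_⟩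
  simp only
  rw [← h14]
  exact h13.1

theorem loc {f : Y → Z} {G : Set Y} (hf : ContinuousOn f G) {w : Y}
    (hw : w ∈ G) {V : Set Z} (hV : IsOpen V) (h : f w ∈ V) :
    ∃ U, IsOpen U ∧ w ∈ U ∧ ∀ w' ∈ U, w' ∈ G → f w' ∈ V := by
  obtain ⟨O, h3, h4⟩ := continuousOn_iff'.1 hf V hV
  have : w ∈ O ∩ G := h4 ▸ (⟨h, hw⟩ : w ∈ f ⁻¹' V ∩ G)
  refine ⟨O, h3, this.1, fun w' h5 h6 => ?_⟩
  have : w' ∈ f ⁻¹' V ∩ G := h4 ▸ (⟨h5, h6⟩ : w' ∈ O ∩ G)
  exact this.1

theorem dense_union_ext {V : Set Y} : Dense (V ∪ (closure V)ᶜ) := by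
  rw [dense_iff_closure_eq, closure_union]
  exact eq_univ_of_univ_subset ((union_compl_self (closure V)).symm.subset.trans
    (union_subset_union_right _ subset_closure))

theorem QO.int_ne [BaireSpace Y] {f : Y → Z} (hf : QO f) {G U : Set Y} (hG : G ∈ residual Y)
    (hU : IsOpen U) (h : U.Nonempty) : (interior (closure (f '' (U ∩ G)))).Nonempty := by
  by_contra h1
  rw [not_nonempty_iff_eq_empty, interior_eq_empty_iff_dense_compl] at h1
  obtain ⟨w, h2, h3, h4⟩ := ex_res (inter_mem hG (hf.2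
    (residual_of_dense_open isClosed_closure.isOpen_compl h1))) hU h
  exact h4 (subset_closure ⟨w, ⟨h2, h3⟩, rfl⟩)

end general

/-- Baire space. -/
abbrev X : Type := ℕ → ℕ

/-- Codes of cylinders. -/
abbrev C : Type := ℕ × (ℕ →₀ ℕ)

/-- Cylinders. -/
def cyl (c : C) : Set X := {z | ∀ i < c.1, z i = c.2 i}

theorem self_cyl (c : C) : (c.2 : X) ∈ cyl c := fun _ _ => rfl

theorem cyl_ne (c : C) : (cyl c).Nonempty := ⟨_, self_cyl c⟩

theorem isOpen_cyl (c : C) : IsOpen (cyl c) := PiNat.isOpen_cylinder (fun _ => ℕ) c.2 c.1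

theorem cyl_zero : cyl (0, 0) = univ := eq_univ_of_forall fun _ _ h => absurd h (Nat.not_lt_zero _)

theorem cyl_sub {c d : C} {z : X} (hc : z ∈ cyl c) (hd : z ∈ cyl d) (h : c.1 ≤ d.1) :
    cyl d ⊆ cyl c := fun y hy i hi => by
  rw [hy i (hi.trans_le h), ← hd i (hi.trans_le h), hc i hi]

theorem ex_cyl' (z : X) (n : ℕ) : ∃ c : C, c.1 = n ∧ z ∈ cyl c := by
  refine ⟨(n, Finsupp.onFinset (Finset.range n) (fun i => if i < n then z i else 0)
    fun i hi => ?_), rfl, fun i hi => ?_⟩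
  · by_contra h
    exact hi (if_neg (by simpa using h))
  · exact (if_pos hi).symm

theorem ex_cyl {U : Set X} (hU : IsOpen U) {z : X} (hz : z ∈ U) (N : ℕ) :
    ∃ c : C, N ≤ c.1 ∧ z ∈ cyl c ∧ cyl c ⊆ U := by
  obtain ⟨_, ⟨x, n, rfl⟩, h1, h2⟩ :=
    (PiNat.isTopologicalBasis_cylinders (fun _ => ℕ)).exists_subset_of_mem_open hz hU
  obtain ⟨c, h3, h4⟩ := ex_cyl' z (max n N)
  refine ⟨c, by omega, h4, fun y hy => h2 fun i hi => ?_⟩
  have h5 : i < c.1 := by have : i < n := hi; omega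
  rw [hy i h5, ← h4 i h5]
  exact h1 i hi

/-- The retraction onto a cylinder. -/
def mc (c : C) (y : X) : X := fun i => if i < c.1 then c.2 i else y i

theorem mc_mem (c : C) (y : X) : mc c y ∈ cyl c := fun _ hi => if_pos hi

theorem mc_eq {c : C} {y : X} (h : y ∈ cyl c) : mc c y = y := funext fun i => by
  unfold mc
  split_ifs with hi
  · exact (h i hi).symm
  · rfl

theorem continuous_mc (c : C) : Continuous (mc c) := continuous_pi fun i => by
  unfold mc
  split_ifs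
  · exact continuous_const
  · exact continuous_apply i

theorem isOpenMap_mc (c : C) : IsOpenMap (mc c) := by
  intro U hU
  refine isOpen_iff_forall_mem_open.2 ?_
  rintro _ ⟨y, hy, rfl⟩
  obtain ⟨d, h1, h2, h3⟩ := ex_cyl hU hy c.1
  obtain ⟨d', h4, h5⟩ := ex_cyl' (mc c y) d.1
  refine ⟨cyl d', fun z hz => ⟨fun i => if i < c.1 then y i else z i, h3 fun i hi => ?_, ?_⟩,
    isOpen_cyl _, h5⟩
  · split_ifs with h6
    · exact h2 i hi
    · rw [hz i (by omega), ← h5 i (by omega), ← h2 i hi]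
      exact if_neg h6
  · funext i
    unfold mc
    split_ifs with h6
    · rw [hz i (by omega), ← h5 i (by omega)]
      exact (if_pos h6).symm
    · exact if_neg h6

theorem qo_mc (c : C) : QO (mc c) := QO.of_open (continuous_mc c) (isOpenMap_mc c)

/-! ### Runs -/

section run

variable {Y : Type} [TopologicalSpace Y] (dec : ℕ → C) (U : ℕ → Set X) (V : C → Set Y)

/-- Valid steps. -/
def Val (n : ℕ) (a : Y) (s s' : C) : Prop :=
  s.1 < s'.1 ∧ cyl s' ⊆ cyl s ∧ cyl s' ⊆ U n ∧ a ∈ V s'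

open Classical in
/-- One step. -/
noncomputable def step (n : ℕ) (a : Y) (s : C) (k : ℕ) : C :=
  if Val U V n a s (dec k) then dec k else
    if h : ∃ k, Val U V n a s (dec k) then dec (Nat.find h) else s

/-- The run. -/
noncomputable def run (a : Y) (b : X) : ℕ → C
  | 0 => (0, 0)
  | n + 1 => step dec U V n a (run a b n) (b n)

omit [TopologicalSpace Y] in
theorem step_val {n : ℕ} {a : Y} {s : C} (h : ∃ k, Val U V n a s (dec k)) (k : ℕ) :
    Val U V n a s (step dec U V n a s k) := by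
  classical
  unfold step
  split_ifs with h1
  · exact h1
  · exact Nat.find_spec h

omit [TopologicalSpace Y] in
theorem run_congr (a : Y) {b b' : X} {n : ℕ} (h : ∀ i < n, b i = b' i) :
    run dec U V a b n = run dec U V a b' n := by
  induction n with
  | zero => rfl
  | succ n ih =>
    simp only [run]
    rw [ih fun i hi => h i (hi.trans (Nat.lt_succ_self n)), h n (Nat.lt_succ_self n)]

theorem step_loc {n : ℕ} {a : Y} {s : C} (ha : ∀ s, ∀ᶠ a' in 𝓝 a, (a' ∈ V s ↔ a ∈ V s))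
    (h : ∃ k, Val U V n a s (dec k)) (k : ℕ) :
    ∀ᶠ a' in 𝓝 a, step dec U V n a' s k = step dec U V n a s k := by
  classical
  have h1 : ∀ k, ∀ᶠ a' in 𝓝 a, (Val U V n a' s (dec k) ↔ Val U V n a s (dec k)) := fun k =>
    (ha (dec k)).mono fun a' h => and_congr_right fun _ => and_congr_right fun _ =>
      and_congr_right fun _ => h
  have h2 : ∀ᶠ a' in 𝓝 a, ∀ k ∈ Finset.range (Nat.find h + 1),
      (Val U V n a' s (dec k) ↔ Val U V n a s (dec k)) :=
    (eventually_all_finset _).2 fun k _ => h1 k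
  refine ((h1 k).and h2).mono fun a' ⟨h3, h4⟩ => ?_
  unfold step
  by_cases h5 : Val U V n a s (dec k)
  · rw [if_pos h5, if_pos (h3.2 h5)]
  · have h6 : ∃ k, Val U V n a' s (dec k) :=
      ⟨Nat.find h, (h4 _ (Finset.self_mem_range_succ _)).2 (Nat.find_spec h)⟩
    rw [if_neg h5, if_neg (fun h7 => h5 (h3.1 h7)), dif_pos h, dif_pos h6]
    congr 1
    rw [Nat.find_eq_iff]
    exact ⟨(h4 _ (Finset.self_mem_range_succ _)).2 (Nat.find_spec h), fun m hm h7 =>
      Nat.find_min h hm ((h4 m (Finset.mem_range.2 (by omega))).1 h7)⟩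

end run

theorem exists_run {Y : Type} [TopologicalSpace Y] [BaireSpace Y] (U : ℕ → Set X)
    (hU : ∀ n, IsOpen (U n) ∧ Dense (U n)) (V : C → Set Y) (hV : ∀ s, IsOpen (V s))
    (h0 : Dense (V (0, 0)))
    (hext : ∀ s O D, IsOpen O → O.Nonempty → O ⊆ V s → IsOpen D → Dense D →
      ∃ s' : C, s.1 < s'.1 ∧ cyl s' ⊆ cyl s ∧ cyl s' ⊆ D ∧ (V s' ∩ O).Nonempty) :
    ∃ κ : Y × X → X, QO κ ∧ ∀ᶠ p in residual (Y × X), (∀ n, κ p ∈ U n) ∧
      ∀ N, ∃ s : C, N ≤ s.1 ∧ κ p ∈ cyl s ∧ p.1 ∈ V s := by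
  obtain ⟨dec, hdec⟩ := exists_surjective_nat C
  let H : Set Y := {a | (∀ s, a ∈ V s ∪ (closure (V s))ᶜ) ∧ a ∈ V (0, 0) ∧
    ∀ n s, a ∈ V s → ∃ k, Val U V n a s (dec k)}
  have hH : H ∈ residual Y := by
    refine inter_mem (eventually_countable_forall.2 fun s => residual_of_dense_open
      ((hV s).union isClosed_closure.isOpen_compl) dense_union_ext)
      (inter_mem (residual_of_dense_open (hV _) h0) (eventually_countable_forall.2 fun n =>
        eventually_countable_forall.2 fun s => ?_))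
    have h1 : IsOpen ((closure (V s))ᶜ ∪ {a | ∃ k, Val U V n a s (dec k)}) := by
      refine isClosed_closure.isOpen_compl.union (isOpen_iff_forall_mem_open.2 ?_)
      rintro a ⟨k, hk⟩
      exact ⟨V (dec k), fun a' h => ⟨k, hk.1, hk.2.1, hk.2.2.1, h⟩, hV _, hk.2.2.2⟩
    refine mem_of_superset (residual_of_dense_open h1 (dense_iff_inter_open.2 fun O h2 h3 => ?_))
      fun a ha h => ha.elim (fun h4 => absurd (subset_closure h) h4) id
    obtain ⟨a, h4, h5 | h5⟩ := dense_iff_inter_open.1 (dense_union_ext (V := V s)) O h2 h3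
    · obtain ⟨s', h6, h7, h8, a', h9, h10⟩ := hext s (O ∩ V s) (U n) (h2.inter (hV s))
        ⟨a, h4, h5⟩ inter_subset_right (hU n).1 (hU n).2
      obtain ⟨k, rfl⟩ := hdec s'
      exact ⟨a', h10.1, Or.inr ⟨k, h6, h7, h8, h9⟩⟩
    · exact ⟨a, h4, Or.inl h5⟩
  have hv : ∀ a ∈ H, ∀ b n, a ∈ V (run dec U V a b n) := fun a ha b n => by
    induction n with
    | zero => exact ha.2.1
    | succ n ih => exact (step_val dec U V (ha.2.2 n _ ih) _).2.2.2
  have hval : ∀ a ∈ H, ∀ b n, Val U V n a (run dec U V a b n) (run dec U V a b (n + 1)) :=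
    fun a ha b n => step_val dec U V (ha.2.2 n _ (hv a ha b n)) _
  have hlen : ∀ a ∈ H, ∀ b n, n ≤ (run dec U V a b n).1 := fun a ha b n => by
    induction n with
    | zero => exact Nat.zero_le _
    | succ n ih => have := (hval a ha b n).1; omega
  have hanti : ∀ a ∈ H, ∀ b, Antitone fun n => cyl (run dec U V a b n) := fun a ha b =>
    antitone_nat_of_succ_le fun n => (hval a ha b n).2.1
  let κ : Y × X → X := fun p j => (run dec U V p.1 p.2 (j + 1)).2 j
  have hκ : ∀ p : Y × X, p.1 ∈ H → ∀ n, κ p ∈ cyl (run dec U V p.1 p.2 n) := fun p hp n i hi => by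
    have h1 := self_cyl (run dec U V p.1 p.2 (max n (i + 1)))
    have h2 := hanti _ hp p.2 (le_max_left n (i + 1)) h1 i hi
    have h3 := hanti _ hp p.2 (le_max_right n (i + 1)) h1 i (hlen _ hp _ _)
    rw [← h2, h3]
  have hloc : ∀ a ∈ H, ∀ b n, ∀ᶠ a' in 𝓝 a, run dec U V a' b n = run dec U V a b n := by
    intro a ha b n
    have h1 : ∀ s, ∀ᶠ a' in 𝓝 a, (a' ∈ V s ↔ a ∈ V s) := fun s => by
      rcases ha.1 s with h | h
      · exact mem_of_superset ((hV s).mem_nhds h) fun a' h' => iff_of_true h' h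
      · exact mem_of_superset (isClosed_closure.isOpen_compl.mem_nhds h) fun a' h' =>
          iff_of_false (fun h2 => h' (subset_closure h2)) fun h2 => h (subset_closure h2)
    induction n with
    | zero => exact Eventually.of_forall fun _ => rfl
    | succ n ih =>
      refine (ih.and (step_loc dec U V h1 (ha.2.2 n _ (hv a ha b n)) (b n))).mono fun a' h => ?_
      simp only [run]
      rw [h.1, h.2]
  have hH' : Prod.fst ⁻¹' H ∈ residual (Y × X) := QO.fst.2 hH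
  refine ⟨κ, QO.crit hH' (fun p hp => ContinuousAt.continuousWithinAt ?_) ?_,
    mem_of_superset hH' fun p hp => ⟨fun n => (hval _ hp p.2 n).2.2.1 (hκ p hp _),
      fun N => ⟨_, hlen _ hp p.2 N, hκ p hp N, hv _ hp _ _⟩⟩⟩
  · refine continuousAt_pi.2 fun j => continuousAt_const.congr (f := fun _ => κ p j) ?_
    obtain ⟨c, h1, h2⟩ := ex_cyl' p.2 (j + 1)
    have h3 : ∀ᶠ q : Y × X in 𝓝 p, q.2 ∈ cyl c :=
      continuous_snd.continuousAt ((isOpen_cyl c).mem_nhds h2)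
    have h4 : ∀ᶠ q : Y × X in 𝓝 p, run dec U V q.1 p.2 (j + 1) = run dec U V p.1 p.2 (j + 1) :=
      continuous_fst.continuousAt (hloc _ hp p.2 (j + 1))
    refine (h3.and h4).mono fun q hq => ?_
    simp only [κ]
    rw [← hq.2, run_congr dec U V q.1 (b := p.2) (b' := q.2) fun i hi => by
      rw [h2 i (by omega), hq.1 i (by omega)]]
  · rintro D h1 h2 O h3 ⟨⟨a₀, b⟩, h4⟩
    obtain ⟨O₁, O₂, h5, h6, h7, h8, h9⟩ := isOpen_prod_iff.1 h3 a₀ b h4
    obtain ⟨a, h10, ha⟩ := ex_res hH h5 ⟨a₀, h7⟩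
    obtain ⟨c, -, h11, h12⟩ := ex_cyl h6 h8 0
    obtain ⟨O', h13, h14, h15⟩ := mem_nhds_iff.1 (inter_mem (hloc a ha b c.1)
      (inter_mem (h5.mem_nhds h10) ((hV _).mem_nhds (hv a ha b c.1))))
    obtain ⟨s', h16, h17, h18, h19⟩ := hext (run dec U V a b c.1) O' (D ∩ U c.1) h14 ⟨a, h15⟩
      (fun a' h => (h13 h).2.2) (h1.inter (hU _).1) (h2.inter_of_isOpen_left (hU _).2 h1)
    obtain ⟨a', h20, ha'⟩ := ex_res hH ((hV s').inter h14) h19
    obtain ⟨k, rfl⟩ := hdec s'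
    have h21 : ∀ i < c.1, Function.update b c.1 k i = b i := fun i hi =>
      Function.update_of_ne hi.ne _ _
    refine ⟨(a', Function.update b c.1 k), h9 ⟨(h13 h20.2).2.1, h12 fun i hi =>
      (h21 i hi).trans (h11 i hi)⟩, ha', (h18 ?_).1⟩
    have h22 := hκ (a', Function.update b c.1 k) ha' (c.1 + 1)
    simp only [run] at h22
    rw [run_congr dec U V a' h21, (h13 h20.2).1, Function.update_self, step,
      if_pos ⟨h16, h17, fun z hz => (h18 hz).2, h20.1⟩] at h22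
    exact h22

/-- A category preserving map has a generic section below a condition. -/
theorem lift {Y : Type} [TopologicalSpace Y] [BaireSpace Y] [T3Space Y] {g : X → Y}
    (hg : QO g) : ∃ W : Set Y, IsOpen W ∧ W.Nonempty ∧ ∃ κ : Y × X → X, QO κ ∧
      ∀ᶠ p in residual (Y × X), p.1 ∈ W → g (κ p) = p.1 := by
  obtain ⟨G, hG, hc⟩ := hg.1
  obtain ⟨S, h1, h2, h3, h4⟩ := mem_residual_iff.1 hG
  obtain ⟨U, hU⟩ := (h3.insert univ).exists_eq_range (insert_nonempty _ _)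
  have hU' : ∀ n, IsOpen (U n) ∧ Dense (U n) := fun n => by
    have : U n ∈ insert univ S := hU ▸ mem_range_self n
    rcases this with h | h
    · rw [h]; exact ⟨isOpen_univ, dense_univ⟩
    · exact ⟨h1 _ h, h2 _ h⟩
  let R : C → Set Y := fun s => interior (closure (g '' (cyl s ∩ G)))
  have hR : ∀ s, (R s).Nonempty := fun s => hg.int_ne hG (isOpen_cyl s) (cyl_ne s)
  obtain ⟨κ, h5, h6⟩ := exists_run U hU' (fun s => R s ∪ (closure (R (0, 0)))ᶜ)
    (fun s => isOpen_interior.union isClosed_closure.isOpen_compl) dense_union_ext (by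
      intro s O D hO hO' hOs hD hD'
      by_cases h : (O ∩ R s).Nonempty
      · obtain ⟨a, ha, ha'⟩ := h
        obtain ⟨_, h5, z, hz, rfl⟩ := mem_closure_iff.1 (interior_subset ha') O hO ha
        obtain ⟨T, h6, h7, h8⟩ := loc hc hz.2 hO h5
        obtain ⟨z', h9, h10⟩ := dense_iff_inter_open.1 hD' _ (h6.inter (isOpen_cyl s))
          ⟨z, h7, hz.1⟩
        obtain ⟨s', h11, -, h12⟩ := ex_cyl ((h6.inter (isOpen_cyl s)).inter hD) ⟨h9, h10⟩ (s.1 + 1)
        refine ⟨s', h11, fun y hy => (h12 hy).1.2, fun y hy => (h12 hy).2, ?_⟩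
        obtain ⟨a', h13⟩ := hR s'
        have h14 : a' ∈ closure O := closure_mono (by
          rintro _ ⟨y, hy, rfl⟩
          exact h8 y (h12 hy.1).1.1 hy.2) (interior_subset h13)
        obtain ⟨a'', h15, h16⟩ := mem_closure_iff.1 h14 (R s') isOpen_interior h13
        exact ⟨a'', Or.inl h15, h16⟩
      · obtain ⟨a, ha⟩ := hO'
        obtain ⟨z', h9, h10⟩ := dense_iff_inter_open.1 hD' _ (isOpen_cyl s) (cyl_ne s)
        obtain ⟨s', h11, -, h12⟩ := ex_cyl ((isOpen_cyl s).inter hD) ⟨h9, h10⟩ (s.1 + 1)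
        exact ⟨s', h11, fun y hy => (h12 hy).1, fun y hy => (h12 hy).2, a,
          Or.inr ((hOs ha).resolve_left fun h' => h ⟨a, ha, h'⟩), ha⟩)
  refine ⟨R (0, 0), isOpen_interior, hR _, κ, h5, h6.mono fun p hp hW => ?_⟩
  have hz : κ p ∈ G := h4 fun T hT => by
    obtain ⟨n, rfl⟩ : T ∈ range U := hU ▸ mem_insert_of_mem _ hT
    exact hp.1 n
  by_contra hne
  obtain ⟨K, hK, hK1, hK2⟩ := exists_mem_nhds_isClosed_subset (isOpen_compl_singleton.mem_nhds hne)
  obtain ⟨T, h7, h8, h9⟩ := loc hc hz isOpen_interior (mem_interior_iff_mem_nhds.2 hK)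
  obtain ⟨c, -, h10, h11⟩ := ex_cyl h7 h8 0
  obtain ⟨s, h12, h13, h14⟩ := hp.2 c.1
  have h15 : p.1 ∈ closure (g '' (cyl s ∩ G)) :=
    interior_subset (h14.resolve_right fun h => h (subset_closure hW))
  refine hK2 (hK1.closure_subset_iff.2 ?_ h15) rfl
  rintro _ ⟨y, hy, rfl⟩
  exact interior_subset (h9 y (h11 (cyl_sub h10 h13 h12 hy.1)) hy.2)

end Pool.Agent.H254Z.MF
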