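import Pool.Agent.H254Z.MF.Dec

/-!
# Generic reals and their classes modulo eventual equality
-/

set_option autoImplicit false

namespace Pool.Agent.H254Z.MF

open Pool.Agent.H164Z.Bspt Filter Set
open Pool.Agent.H982Z.Sym (fOr fImp fIff fEx sat_or sat_imp sat_iff sat_ex bd)

/-- The generic real. -/
def gN : Nm QM := ⟨ℕ, natN, fun n => ⟨fun h _ => ∀ᶠ w in residual X, bin (h.f w) n = true,
  fun _ _ l H => l.qo.2 H⟩⟩

theorem ch_gN {h : QM} {z : Nm QM} :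
    Ch gN h z ↔ ∃ n, (∀ᶠ w in residual X, bin (h.f w) n = true) ∧ z = natN n :=
  ⟨fun ⟨n, k, h1, h2⟩ => ⟨n, h1, h2.trans (natN_mul n k)⟩,
    fun ⟨n, h1, h2⟩ => ⟨n, 1, h1, by rw [m1]; exact h2⟩⟩

theorem gN_ne {σ τ : QM} {L : ℕ} (h : ∀ᶠ w in residual X, bin (σ.f w) L = true)
    (h' : ∀ᶠ w in residual X, bin (τ.f w) L = false) : ¬ feq (gN * σ) (gN * τ) := by
  intro H
  obtain ⟨l, z, h1, h2⟩ := ((ch_gN.2 ⟨L, h, rfl⟩).fmem.right H).ex
  obtain ⟨n, h3, rfl⟩ := ch_gN.1 h1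
  rw [natN_mul] at h2
  obtain rfl := natN_inj h2
  have h4 : ∀ᶠ w in residual X, bin ((τ * l).f w) L = false := l.qo.2 h'
  obtain ⟨w, h5, h6⟩ := res_ex (h3.and h4)
  rw [h5] at h6
  cases h6

theorem exists_diff' {y y' : QM} (h : ¬ ae y y') : ∃ (L : ℕ) (l : QM) (b : Bool),
    (∀ᶠ w in residual X, bin ((y * l).f w) L = b) ∧
      ∀ᶠ w in residual X, bin ((y' * l).f w) L = !b := by
  obtain ⟨L, u, h1⟩ := exists_diff h
  obtain ⟨G, hG, hc⟩ := (y * mC u).qo.1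
  obtain ⟨w, hw⟩ := res_ex hG
  obtain ⟨u', -, h2⟩ := loc_mC hG hc hw
    ((isOpen_discrete {bin ((y * mC u).f w) L}).preimage
      ((continuous_apply L).comp continuous_bin)) rfl (u := (0, 0)) (by rw [cyl_zero]; trivial)
  have h3 : ∀ᶠ w in residual X,
      bin ((y * (mC u * mC u')).f w) L ≠ bin ((y' * (mC u * mC u')).f w) L := (qo_mc u').2 h1
  refine ⟨L, mC u * mC u', _, h2, (h2.and h3).mono fun w' h4 => ?_⟩
  have h5 : bin ((y * (mC u * mC u')).f w') L = bin ((y * mC u).f w) L := h4.1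
  rw [← h5]
  exact Bool.eq_not_iff.2 h4.2.symm

theorem gN_inj {σ τ : QM} (H : feq (gN * σ) (gN * τ)) : ae σ τ := by
  by_contra h
  obtain ⟨L, l, b, h1, h2⟩ := exists_diff' h
  have h3 := H.mul l
  rw [mm, mm] at h3
  cases b
  · exact gN_ne h2 h1 h3.symm
  · exact gN_ne h1 h2 h3

/-- Eventual equality on a residual set. -/
def TL (h k : QM) : Prop := ∀ᶠ w in residual X, ∀ᶠ n in atTop, h.f w n = k.f w n

theorem TL.of_ae {h k : QM} (H : ae h k) : TL h k :=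
  H.mono fun _ hw => Eventually.of_forall (congrFun hw)

theorem TL.symm {h k : QM} (H : TL h k) : TL k h := H.mono fun _ hw => hw.mono fun _ => Eq.symm

theorem TL.trans {h k l : QM} (H : TL h k) (H' : TL k l) : TL h l :=
  (H.and H').mono fun _ hw => (hw.1.and hw.2).mono fun _ h => h.1.trans h.2

theorem TL.mul {h k : QM} (H : TL h k) (l : QM) : TL (h * l) (k * l) := l.qo.2 H

/-- The class of the generic real. -/
def kN : Nm QM := ⟨Unit, fun _ => gN, fun _ => ⟨TL, fun _ _ l H => H.mul l⟩⟩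

theorem ch_kN {h : QM} {z : Nm QM} : Ch kN h z ↔ ∃ k, TL h k ∧ z = gN * k :=
  ⟨fun ⟨_, h⟩ => h, fun h => ⟨(), h⟩⟩

/-- All values of a name. -/
def allN (x : Nm QM) : Nm QM := ⟨Unit, fun _ => x, fun _ => Cl.top⟩

theorem ch_allN {x z : Nm QM} {h : QM} : Ch (allN x) h z ↔ ∃ k : QM, z = x * k :=
  ⟨fun ⟨_, k, _, h⟩ => ⟨k, h⟩, fun ⟨k, h⟩ => ⟨(), k, trivial, h⟩⟩

theorem fmem_allN (x : Nm QM) (k h : QM) : fmem (x * k) (allN x * h) := (ch_allN.2 ⟨k, rfl⟩).fmem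

theorem feq_kN {k k' : QM} (H : TL k k') : feq (kN * k) (kN * k') := by
  refine feq_of_mem (fun h z hz => ?_) fun h z hz => ?_
  · obtain ⟨σ, h1, rfl⟩ := ch_kN.1 ((ch_res _ _ _ _).1 hz)
    rw [mm]
    exact (ch_kN.2 ⟨σ, (H.mul h).symm.trans h1, rfl⟩).fmem
  · obtain ⟨σ, h1, rfl⟩ := ch_kN.1 ((ch_res _ _ _ _).1 hz)
    rw [mm]
    exact (ch_kN.2 ⟨σ, (H.mul h).trans h1, rfl⟩).fmem

theorem fmem_kN {k σ : QM} (H : fmem (gN * σ) (kN * k)) : ∃ l, TL (k * l) (σ * l) := by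
  obtain ⟨l, z, h1, h2⟩ := H.ex
  obtain ⟨τ, h3, rfl⟩ := ch_kN.1 h1
  rw [mm] at h2
  exact ⟨l, h3.trans (TL.of_ae (gN_inj h2).symm)⟩

theorem res_tail : ∀ᶠ z : X × X × X in residual _, ∀ N, ∃ n ≥ N, z.2.1 n ≠ z.2.2 n := by
  refine eventually_countable_forall.2 fun N => residual_of_dense_open ?_
    (dense_iff_inter_open.2 ?_)
  · simp only [ofPred_exists]
    refine isOpen_iUnion fun n => ?_
    have : Continuous fun z : X × X × X => (z.2.1 n, z.2.2 n) := by fun_prop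
    exact (isOpen_discrete {r : ℕ × ℕ | n ≥ N ∧ r.1 ≠ r.2}).preimage this
  · rintro O hO ⟨⟨a, b, b'⟩, h⟩
    have h1 : Continuous fun y : X => (a, b, y) := by fun_prop
    obtain ⟨c, h2, h3, h4⟩ := ex_cyl (hO.preimage h1) h N
    refine ⟨(a, b, Function.update b' c.1 (b c.1 + 1)), h4 fun i hi => ?_, c.1, h2, ?_⟩
    · rw [Function.update_of_ne hi.ne]
      exact h3 i hi
    · simp

theorem kN_ntr {k k' : QM} (h : MG k k') : ¬ feq (kN * (p2 * k)) (kN * (p2 * k')) := by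
  intro H
  obtain ⟨l, h1⟩ := fmem_kN ((ch_kN.2 ⟨p2 * k, TL.of_ae (ae.rfl _), rfl⟩).fmem.right H)
  have h2 : ∀ᶠ w in residual X, ∀ N, ∃ n ≥ N, (p2 * k * l).f w n ≠ (p2 * k' * l).f w n :=
    (h.mul l).2.2 res_tail
  obtain ⟨w, h3, h4⟩ := res_ex (Eventually.and h1 h2)
  obtain ⟨N, hN⟩ := eventually_atTop.1 h3
  obtain ⟨n, h5, h6⟩ := h4 N
  exact h6 (hN n h5).symm

theorem tl_mC (s s' : C) (a : QM) : TL (mC s * a) (mC s' * a) :=
  Eventually.of_forall fun w => (eventually_ge_atTop (max s.1 s'.1)).mono fun n hn => by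
    change mc s (a.f w) n = mc s' (a.f w) n
    unfold mc
    rw [if_neg (by omega), if_neg (by omega)]

theorem noinj (f : Nm QM)
    (tot : ∀ h k : QM, ∃ l σ : QM, RelF (f * (h * l)) (kN * (k * l)) (gN * σ))
    (fn : ∀ (h : QM) x z z', RelF (f * h) x z → RelF (f * h) x z' → feq z z')
    (inj : ∀ (h : QM) x x' z, RelF (f * h) x z → RelF (f * h) x' z → feq x x') : False := by
  have key : ∀ (k k' τ τ' : QM) (L : ℕ), MG k k' → RelF (f * (p1 * k)) (kN * (p2 * k)) (gN * τ) →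
      RelF (f * (p1 * k')) (kN * (p2 * k')) (gN * τ') →
      (∀ᶠ w in residual X, bin (τ.f w) L = true) →
      (∀ᶠ w in residual X, bin (τ'.f w) L = false) → False := by
    intro k k' τ τ' L h1 h2 h3 h4 h5
    obtain ⟨p, s, s', -, h6⟩ := h1.amalg (In.top _)
    obtain ⟨φ, e1, e2⟩ := exists_prod (mC p)
    obtain ⟨σ, e3, e4⟩ := exists_prod' s
    obtain ⟨σ', e5, e6⟩ := exists_prod' s'
    have e7 : p1 * (σ * φ) = mC p * p1 := by rw [← mul_assoc, e3, e1]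
    have e8 : p1 * (σ' * φ) = mC p * p1 := by rw [← mul_assoc, e5, e1]
    have e9 : p2 * (σ * φ) = mC s * p2 := by rw [← mul_assoc, e4, mul_assoc, e2]
    have e10 : p2 * (σ' * φ) = mC s' * p2 := by rw [← mul_assoc, e6, mul_assoc, e2]
    obtain ⟨a, a1, a2⟩ := third (mC p * p1) s'
    obtain ⟨b, b1, b2⟩ := third (mC p * p1) s
    have m1 := a2 _ (ae.of_eq e7)
    have m2 := (b2 _ (ae.of_eq e8)).symm
    have i1 : In (p1 * (σ * φ * p1)) p := by rw [← mul_assoc, e7]; exact (in_mC _ _).mul _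
    have i2 : In (p1 * (σ' * φ * p1)) p := by rw [← mul_assoc, e8]; exact (in_mC _ _).mul _
    obtain ⟨l, h7, -⟩ := h6 _ _ m1 i1 (by rw [← mul_assoc, e9]; exact (in_mC _ _).mul _) a1
    obtain ⟨l', -, h8⟩ := h6 _ _ m2 (i2.ae m2.1.symm) b1
      (by rw [← mul_assoc, e10]; exact (in_mC _ _).mul _)
    have h9 := h2.mul l
    have h10 := h3.mul l'
    rw [mm, mm, mm] at h9 h10
    have h11 : ae (p1 * k' * l') (p1 * k * l) :=
      (h8.left p1).trans ((ae.of_eq (by simp only [← mul_assoc, e3, e5])).trans (h7.left p1).symm)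
    have h12 : TL (p2 * k' * l') (p2 * k * l) := by
      refine (TL.of_ae (h8.left p2)).trans (TL.trans ?_ (TL.of_ae (h7.left p2)).symm)
      simp only [← mul_assoc, e4, e6]
      exact (((tl_mC s' s p2).mul _).mul _).mul _
    exact gN_ne (σ := τ * l) (τ := τ' * l') (l.qo.2 h4) (l'.qo.2 h5)
      (fn _ _ _ _ h9 (h10.congr (feq_ae f h11) (feq_kN h12) (feq.rfl _)))
  obtain ⟨k', -, h1⟩ := third p1 (0, 0)
  have h2 := h1 1 (ae.rfl _)
  generalize 1 * p1 = k at h2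
  obtain ⟨l, σ, h3⟩ := tot (p1 * k) (p2 * k)
  obtain ⟨l', σ', h4⟩ := tot (p1 * k' * l) (p2 * k' * l)
  have h5 := h3.mul l'
  rw [mm, mm, mm] at h5
  have h6 := (h2.mul l).mul l'
  have h7 : ¬ ae (σ * l') σ' := fun h => kN_ntr h6 (inj _ _ _ _ h5
    (h4.congr (feq_ae f h6.1.symm) (feq.rfl _) (feq_ae gN h.symm)))
  obtain ⟨L, m, b, h8, h9⟩ := exists_diff' h7
  have h10 := h5.mul m
  have h11 := h4.mul m
  rw [mm, mm, mm] at h10 h11
  cases b
  · exact key _ _ _ _ L (h6.mul m).symm h11 h10 h9 h8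
  · exact key _ _ _ _ L (h6.mul m) h10 h11 h8 h9

/-- There is no injection from `v 1` into `v 0`. -/
def fNo : Fml := .neg (fEx (.and (.all (fImp (.mem 0 3) (fEx (.and (.mem 0 3) (fRel 2 1 0)))))
  (.and (.all (.all (.all (fImp (fRel 3 2 1) (fImp (fRel 3 2 0) (.eq 1 0))))))
    (.all (.all (.all (fImp (fRel 3 2 0) (fImp (fRel 3 1 0) (.eq 2 1)))))))))

/-- The properties of the set of generic reals and of the set of their classes. -/
def fTail : Fml := fEx (fEx (.and (.all (fImp (.mem 0 2) (fEx (.mem 0 1))))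
  (.and (.all (fImp (.mem 0 2) (.all (fImp (.mem 0 1) (.mem 0 2)))))
  (.and (.all (fImp (.mem 0 2) (.all (fImp (.mem 0 3) (.all (fImp (.mem 0 2)
    (fImp (.mem 0 1) (.eq 2 1))))))))
  (.and (fPS.ren (cons 1 fun _ => 0)) (.and fPS fNo))))))

theorem force_fNo (v : ℕ → Nm QM) : Force fNo (cons (allN gN) (cons (allN kN) v)) := by
  intro g H
  obtain ⟨m, f, h1, h2, h3⟩ := H.ex
  refine noinj f (fun h k => ?_) (fun h x z z' i1 i2 => ?_) fun h x x' z i1 i2 => ?_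
  · obtain ⟨l, z, h4, h5⟩ := (h1.all_mem h (z := kN * k) (fmem_allN kN k 1)).ex
    obtain ⟨l', _, h6, h7⟩ := (show fmem z (allN gN * (1 : QM)) from h4).ex
    obtain ⟨σ, rfl⟩ := ch_allN.1 h6
    have h8 : RelF (f * h * l * l') (kN * k * l * l') (z * l') := (force_fRel.1 h5).mul l'
    rw [mm, mm, mm, mm] at h8
    exact ⟨l * l', σ, h8.congr (feq.rfl _) (feq.rfl _) h7⟩
  · exact ((((h2 h x).inst z).inst z').mp (force_fRel.2 i1)).mp (force_fRel.2 i2)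
  · exact ((((h3 h x).inst x').inst z).mp (force_fRel.2 i1)).mp (force_fRel.2 i2)

theorem force_fTail (v : ℕ → Nm QM) : Force fTail v := by
  refine force_ex_of (allN kN) (force_ex_of (allN gN) ⟨force_all_mem fun h z hz => ?_,
    force_all_mem fun h z hz => ?_, force_all_mem fun h z hz => ?_, ?_, ?_, force_fNo v⟩)
  · obtain ⟨k, rfl⟩ := ch_allN.1 hz
    exact force_ex_of (gN * k) (ch_kN.2 ⟨k, TL.of_ae (ae.rfl _), rfl⟩).fmem
  · obtain ⟨k, rfl⟩ := ch_allN.1 hz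
    refine force_all_mem fun h' z hz => ?_
    obtain ⟨σ, -, rfl⟩ := ch_kN.1 ((ch_res kN _ _ _).1 hz)
    exact fmem_allN gN σ 1
  · obtain ⟨k, rfl⟩ := ch_allN.1 hz
    refine force_all_mem fun h' z hz => ?_
    obtain ⟨k', rfl⟩ := ch_allN.1 (show Ch (allN kN) h' z from hz)
    refine force_all_mem fun a z hz => ?_
    obtain ⟨σ, h1, rfl⟩ := ch_kN.1 ((ch_res kN _ _ _).1 ((ch_res (kN * k) _ _ _).1 hz))
    refine force_imp.2 fun b H => feq_of_dn fun c => ?_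
    change fmem (gN * σ * b) (kN * k' * a * b) at H
    have h2 := H.mul c
    simp only [mm] at h2
    obtain ⟨l, h3⟩ := fmem_kN h2
    refine ⟨l, ?_⟩
    change feq (kN * k * h' * a * b * (c * l)) (kN * k' * a * b * (c * l))
    simp only [mm]
    exact feq_kN ((h1.mul (b * c * l)).trans h3.symm)
  · rw [force_ren]
    refine force_fPS (ι := QM × QM) (fun i => gN * i.1) (fun i => kN * i.1) (fun i => i.2)
      (fun i => fmem_allN gN i.1 i.2) (fun i i' k k' _ H => ?_) fun h z hz => ?_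
    · rw [mm, mm] at H ⊢
      exact feq_ae _ (gN_inj H)
    · obtain ⟨l, _, h1, h2⟩ := (show fmem z (allN kN * h) from hz).ex
      obtain ⟨k, rfl⟩ := ch_allN.1 h1
      exact ⟨l, (k, h * l), 1, (mul_one _).symm, by rw [m1]; exact h2⟩
  · refine force_fPS (ι := {i : QM × QM × QM // Lk i.1 i.2.1 i.2.2})
      (fun i => kN * (p2 * i.1.2.2)) (fun i => gN * i.1.2.1) (fun i => i.1.1)
      (fun i => fmem_allN kN _ i.1.1) (fun i i' k k' e H => ?_) fun h z hz => ?_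
    · rw [mm, mm] at H ⊢
      refine feq_ae _ ?_
      by_contra h
      have h1 := i'.2.mul k'
      rw [← e] at h1
      obtain ⟨l, h2⟩ := (i.2.mul k).mg h1 h
      have h3 := H.mul l
      rw [mm, mm] at h3
      exact kN_ntr h2 h3
    · obtain ⟨l, _, h1, h2⟩ := (show fmem z (allN gN * h) from hz).ex
      obtain ⟨y, rfl⟩ := ch_allN.1 h1
      obtain ⟨σ, h3⟩ := exists_lk (h * l) y
      exact ⟨l, ⟨(h * l, y, σ), h3⟩, 1, (mul_one _).symm, by rw [m1]; exact h2⟩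

theorem exists_tail (G : Mod QM) : ∃ Φ R : G.N, (∀ x, G.E x Φ → ∃ y, G.E y x) ∧
    (∀ x, G.E x Φ → ∀ y, G.E y x → G.E y R) ∧
    (∀ x, G.E x Φ → ∀ x', G.E x' Φ → ∀ y, G.E y x → G.E y x' → x = x') ∧
    PS G.E Φ R ∧ PS G.E R Φ ∧ ¬ ∃ f, (∀ x, G.E x Φ → ∃ z, G.E z R ∧ Rel G.E f x z) ∧
      (∀ x z z', Rel G.E f x z → Rel G.E f x z' → z = z') ∧
      ∀ x x' z, Rel G.E f x z → Rel G.E f x' z → x = x' := by
  have H := G.valid force_fTail fun _ => G.cl 0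
  rw [fTail, sat_ex] at H
  obtain ⟨Φ, H⟩ := H
  rw [sat_ex] at H
  obtain ⟨R, h1, h2, h3, h4, h5, h6⟩ := H
  rw [sat_ren] at h4
  simp only [fNo, Sat, sat_imp, sat_ex, sat_fRel G.zf] at h1 h2 h3 h6
  exact ⟨Φ, R, h1, h2, h3, sat_fPS G.str h4, sat_fPS G.str h5, h6⟩

theorem exists_model : ∃ (N : Type) (S : Str N) (inv : N → Bool → Cardinal.{0}),
    (∀ a b, inv a ≤ inv b → PS S.E a b) ∧ ∃ Φ R : N, (∀ x, S.E x Φ → ∃ y, S.E y x) ∧
    (∀ x, S.E x Φ → ∀ y, S.E y x → S.E y R) ∧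
    (∀ x, S.E x Φ → ∀ x', S.E x' Φ → ∀ y, S.E y x → S.E y x' → x = x') ∧
    PS S.E Φ R ∧ PS S.E R Φ ∧ ¬ ∃ f, (∀ x, S.E x Φ → ∃ z, S.E z R ∧ Rel S.E f x z) ∧
      (∀ x z z', Rel S.E f x z → Rel S.E f x z' → z = z') ∧
      ∀ x x' z, Rel S.E f x z → Rel S.E f x' z → x = x' := by
  obtain ⟨G, hG⟩ := exists_mod (fun x : Nm QM => ∃ θ, Inv x θ) exists_inv
    fun _ h ⟨θ, H⟩ => ⟨θ, H.mul h⟩
  have H : ∀ a : G.N, ∃ k θ, G.cl k = a ∧ ∀ᶠ m in atTop, Inv (G.v m k) θ := fun a => by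
    obtain ⟨k, rfl⟩ := G.cl_surj a
    obtain ⟨m, ⟨θ, h1⟩, h2⟩ := ((hG k).and (G.ext (k + 1))).exists
    refine ⟨k, θ, rfl, (eventually_ge_atTop m).mono fun m' hm => ?_⟩
    obtain ⟨h, h3⟩ := h2 m' hm
    rw [h3 k (Nat.lt_succ_self k)]
    exact h1.mul h
  choose k θ h1 h2 using H
  refine ⟨G.N, G.str, θ, fun a b h => ?_, exists_tail G⟩
  have h3 := sat_fPS G.str ((G.truth fPS (cons (k a) fun _ => k b)).2
    (((h2 a).and (h2 b)).mono fun m hm => Inv.cmp hm.1 hm.2 h))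
  change PS G.E (G.cl (k a)) (G.cl (k b)) at h3
  rwa [h1, h1] at h3

end Pool.Agent.H254Z.MF
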