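import Pool.Agent.H254Z.MF.QO

/-!
# A generic perfect tree
-/

set_option autoImplicit false

namespace Pool.Agent.H254Z.MF

open Filter Topology Set

/-- Codes of the nodes of the binary tree. -/
def code (k : ℕ) (y : ℕ → Bool) : ℕ := Nat.pair k (Encodable.encode fun i : Fin k => y i)

theorem code_congr {k : ℕ} {y y' : ℕ → Bool} (h : ∀ i < k, y i = y' i) : code k y = code k y' := by
  unfold code
  congr 2
  funext i
  exact h i i.2

theorem code_inj {k k' : ℕ} {y y' : ℕ → Bool} (h : code k y = code k' y') :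
    k = k' ∧ ∀ i < k, y i = y' i := by
  obtain ⟨rfl, h1⟩ := Nat.pair_eq_pair.1 h
  exact ⟨rfl, fun i hi => congrFun (Encodable.encode_injective h1) ⟨i, hi⟩⟩

theorem le_code (k : ℕ) (y : ℕ → Bool) : k ≤ code k y := Nat.left_le_pair _ _

/-- The branch `y` of the tree labelled by `x`. -/
def br (x : X) (y : ℕ → Bool) : X := fun k => x (code k y)

theorem continuous_br : Continuous fun p : X × (ℕ → Bool) => br p.1 p.2 := by
  refine continuous_pi fun k => ?_
  have h1 : Continuous fun p : X × ℕ => p.1 p.2 :=
    continuous_prod_of_discrete_right.2 fun b => continuous_apply b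
  have h2 : Continuous (code k) :=
    (continuous_of_discreteTopology (f := fun s : Fin k → Bool =>
      Nat.pair k (Encodable.encode s))).comp (continuous_pi fun i => continuous_apply (i : ℕ))
  exact h1.comp (continuous_fst.prodMk (h2.comp continuous_snd))

theorem tree {D : Set (X × X × X)} (hD : IsOpen D) (hD' : Dense D) (L : ℕ) :
    {p : X × X | ∀ y y' : ℕ → Bool, y L ≠ y' L → (p.1, br p.2 y, br p.2 y') ∈ D} ∈
      residual (X × X) := by
  classical
  refine residual_of_dense_open (isOpen_iff_eventually.2 fun p hp => ?_)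
    (dense_iff_inter_open.2 ?_)
  · have hK : IsCompact {q : (ℕ → Bool) × (ℕ → Bool) | q.1 L ≠ q.2 L} := by
      refine IsClosed.isCompact ?_
      have : Continuous fun q : (ℕ → Bool) × (ℕ → Bool) => (q.1 L, q.2 L) := by fun_prop
      exact (isClosed_discrete {r : Bool × Bool | r.1 ≠ r.2}).preimage this
    have hc : Continuous fun z : (X × X) × (ℕ → Bool) × (ℕ → Bool) =>
        (z.1.1, br z.1.2 z.2.1, br z.1.2 z.2.2) :=
      continuous_fst.fst.prodMk
        ((continuous_br.comp (continuous_fst.snd.prodMk continuous_snd.fst)).prodMk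
          (continuous_br.comp (continuous_fst.snd.prodMk continuous_snd.snd)))
    exact (hK.eventually_forall_of_forall_eventually (x₀ := p)
      (P := fun p q => (p.1, br p.2 q.1, br p.2 q.2) ∈ D) fun q hq =>
        hc.continuousAt (hD.mem_nhds (hp q.1 q.2 hq))).mono fun p' h y y' hy => h (y, y') hy
  · rintro O hO ⟨⟨a₀, x₀⟩, h0⟩
    obtain ⟨O₁, O₂, h1, h2, h3, h4, h5⟩ := isOpen_prod_iff.1 hO a₀ x₀ h0
    obtain ⟨c, hL, h6, h7⟩ := ex_cyl h2 h4 (L + 1)
    let N := c.1
    let ex : (Fin N → Bool) → ℕ → Bool := fun s i => if h : i < N then s ⟨i, h⟩ else false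
    have h8 : Dense (⋂ q : {q : (Fin N → Bool) × (Fin N → Bool) // q.1 ≠ q.2},
        {z : X × ((Fin N → Bool) → X) | (z.1, z.2 q.1.1, z.2 q.1.2) ∈ D}) := by
      refine dense_iInter_of_isOpen (fun q => hD.preimage (by fun_prop)) ?_
      rintro ⟨⟨s, s'⟩, hs⟩
      refine dense_iff_inter_open.2 ?_
      rintro T hT ⟨⟨a, z⟩, hz⟩
      have h9 : Continuous fun r : X × X × X =>
          (r.1, Function.update (Function.update z s r.2.1) s' r.2.2) := by fun_prop
      obtain ⟨r, h10, h11⟩ := dense_iff_inter_open.1 hD' _ (hT.preimage h9)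
        ⟨(a, z s, z s'), by simpa using hz⟩
      refine ⟨_, h10, ?_⟩
      change (r.1, Function.update (Function.update z s r.2.1) s' r.2.2 s,
        Function.update (Function.update z s r.2.1) s' r.2.2 s') ∈ D
      rw [Function.update_self, Function.update_of_ne hs, Function.update_self]
      exact h11
    have h9 : IsOpen (O₁ ×ˢ {z : (Fin N → Bool) → X | ∀ s, ∀ j : Fin N,
        z s j = x₀ (code j (ex s))}) := by
      refine h1.prod ?_
      simp only [ofPred_forall]
      refine isOpen_iInter_of_finite fun s => isOpen_iInter_of_finite fun j => ?_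
      have : Continuous fun z : (Fin N → Bool) → X => z s j := by fun_prop
      exact (isOpen_discrete {x₀ (code j (ex s))}).preimage this
    obtain ⟨⟨a, z⟩, ⟨h10, h11⟩, h12⟩ := dense_iff_inter_open.1 h8 _ h9
      ⟨(a₀, fun s j => x₀ (code j (ex s))), h3, fun _ _ => rfl⟩
    let x : X := fun i => if h : ∃ q : ℕ × (ℕ → Bool), N ≤ q.1 ∧ i = code q.1 q.2 then
      z (fun j => h.choose.2 j) h.choose.1 else x₀ i
    have h13 : ∀ y, br x y = z fun j => y j := fun y => funext fun k => by
      by_cases hk : N ≤ k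
      · have h : ∃ q : ℕ × (ℕ → Bool), N ≤ q.1 ∧ code k y = code q.1 q.2 := ⟨(k, y), hk, rfl⟩
        have h14 := code_inj h.choose_spec.2
        simp only [br, x]
        rw [dif_pos h, ← h14.1]
        congr 1
        funext j
        exact (h14.2 j (j.2.trans_le hk)).symm
      · have h : ¬ ∃ q : ℕ × (ℕ → Bool), N ≤ q.1 ∧ code k y = code q.1 q.2 :=
          fun ⟨q, h14, h15⟩ => hk ((code_inj h15).1 ▸ h14)
        simp only [br, x]
        rw [dif_neg h]
        refine Eq.trans ?_ (h11 _ ⟨k, not_le.1 hk⟩).symm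
        congr 1
        exact code_congr fun i hi => by
          simp only [ex]
          rw [dif_pos (by omega)]
    refine ⟨(a, x), h5 ⟨h10, h7 fun i hi => ?_⟩, fun y y' hy => ?_⟩
    · have h : ¬ ∃ q : ℕ × (ℕ → Bool), N ≤ q.1 ∧ i = code q.1 q.2 :=
        fun ⟨q, h14, h15⟩ => by have := le_code q.1 q.2; omega
      simp only [x]
      rw [dif_neg h]
      exact h6 i hi
    · simp only [h13]
      exact mem_iInter.1 h12 ⟨(fun j => y j, fun j => y' j), fun h =>
        hy (congrFun h ⟨L, hL⟩)⟩

theorem qo_tree {φ : X → X × X} (hφ : QO φ) {y y' : X → ℕ → Bool} (hy : AC y) (hy' : AC y')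
    {L : ℕ} (h : ∀ᶠ w in residual X, y w L ≠ y' w L) :
    QO fun w => ((φ w).1, br (φ w).2 (y w), br (φ w).2 (y' w)) := by
  refine QO.mk' ((AC.cont continuous_fst hφ.1).pair
    ((AC.cont continuous_br ((AC.cont continuous_snd hφ.1).pair hy)).pair
      (AC.cont continuous_br ((AC.cont continuous_snd hφ.1).pair hy')))) fun D h1 h2 => ?_
  exact mem_of_superset (inter_mem (hφ.2 (tree h1 h2 L)) h) fun w hw => hw.1 _ _ hw.2

/-- A binary code of a point. -/
def bin (y : X) : ℕ → Bool := fun n => decide (y n.unpair.1 = n.unpair.2)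

theorem continuous_bin : Continuous bin := continuous_pi fun n =>
  (continuous_of_discreteTopology (f := fun m : ℕ => decide (m = n.unpair.2))).comp
    (continuous_apply n.unpair.1)

theorem bin_inj : Function.Injective bin := fun y y' h => funext fun n => by
  have := congrFun h (Nat.pair n (y n))
  simp only [bin, Nat.unpair_pair, decide_true] at this
  exact (of_decide_eq_true this.symm).symm

end Pool.Agent.H254Z.MF
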